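import Pool.Agent.Work.PolyTime.Blossom.Search

/-!
If the search for alternating paths is stuck then there is no matching that covers all outer
vertices.
-/

set_option autoImplicit false

namespace Pool.Agent.Work.PolyTime.Blossom

variable {V : Type*} [DecidableEq V] {adj : V → V → Prop} {m : V → V} {r : V} {P : V → List V}

theorem even_card_of_involution {s : Finset V} (g : V → V) (h1 : ∀ a ∈ s, g a ∈ s)
    (h2 : ∀ a ∈ s, g (g a) = a) (h3 : ∀ a ∈ s, g a ≠ a) : Even s.card := by
  have h : ∏ _x ∈ s, (-1 : ℤˣ) = 1 :=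
    Finset.prod_involution (fun a _ => g a) (fun a _ => by simp) (fun a ha _ => h3 a ha)
      (fun a ha => h1 a ha) (fun a ha => h2 a ha)
  rw [Finset.prod_const] at h
  exact (neg_one_pow_eq_one_iff_even (by decide)).1 h

/-- If no step applies and no exposed vertex other than `r` is adjacent to an outer vertex, then
no matching covers all outer vertices. -/
theorem Inv.no_cover (h : Inv adj m r P) (hfin : {x | P x ≠ []}.Finite)
    (hm : ∀ v, m (m v) = v) (hr : m r = r)
    (hG : ∀ x y, P x ≠ [] → adj x y → P y = [] → P (m y) = [] → m y = y)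
    (hB : ∀ x y, P x ≠ [] → P y ≠ [] → adj x y → (B m r P x).head? = (B m r P y).head?)
    (hS : ∀ x y, P x ≠ [] → adj x y → m y = y → y = r)
    (m' : V → V) (hm' : ∀ v, m' (m' v) = v) (hadj' : ∀ v, m' v ≠ v → adj v (m' v))
    (hcov : ∀ x, P x ≠ [] → m' x ≠ x) : False := by
  classical
  have hrr : P r ≠ [] := by rw [h.root]; simp
  set O : Finset V := hfin.toFinset with hO
  have hmemO : ∀ x, x ∈ O ↔ P x ≠ [] := fun x => by rw [hO, Set.Finite.mem_toFinset]; rfl
  set Bl : V → Finset V := fun b => O.filter fun x => (B m r P x).head? = some b with hBl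
  have hmemBl : ∀ b x, x ∈ Bl b ↔ P x ≠ [] ∧ (B m r P x).head? = some b := fun b x => by
    rw [hBl, Finset.mem_filter, hmemO]
  set Bs : Finset V := O.filter fun a => bs m r P a = true with hBs
  have hmemBs : ∀ a, a ∈ Bs ↔ P a ≠ [] ∧ bs m r P a = true := fun a => by
    rw [hBs, Finset.mem_filter, hmemO]
  -- a base is the first base of its path
  have hbase : ∀ b ∈ Bs, (B m r P b).head? = some b := by
    intro b hb
    rw [hmemBs] at hb
    obtain ⟨k, k', -, e⟩ := h.base_suffix (x := b) (u := b)
      (mem_B.2 ⟨h.mem_self hb.1, bs_iff.1 hb.2⟩)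
    rw [e]; rfl
  -- a vertex that is a base of its path first is equal to it
  have hself : ∀ b x, x ∈ Bl b → bs m r P x = true → x = b := by
    intro b x hx hb
    have h1 := hbase x ((hmemBs x).2 ⟨((hmemBl b x).1 hx).1, hb⟩)
    have h2 := ((hmemBl b x).1 hx).2
    rw [h1] at h2
    exact Option.some.inj h2
  have hodd : ∀ b ∈ Bs, ¬ Even (Bl b).card := by
    intro b hb
    have hbBl : b ∈ Bl b := (hmemBl b b).2 ⟨((hmemBs b).1 hb).1, hbase b hb⟩
    have heven : Even ((Bl b).erase b).card := by
      refine even_card_of_involution m ?_ (fun a _ => hm a) ?_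
      · intro a ha
        rw [Finset.mem_erase] at ha ⊢
        have hnb : ¬ bs m r P a = true := fun hb' => ha.1 (hself b a ha.2 hb')
        rw [Bool.not_eq_true, bs_false] at hnb
        have haP := ((hmemBl b a).1 ha.2)
        have hB' := h.d2 a haP.1 hnb.1 hnb.2
        refine ⟨?_, (hmemBl b _).2 ⟨hnb.2, by rw [hB']; exact haP.2⟩⟩
        intro e
        have hmb : m b = a := by rw [← e, hm]
        rcases bs_iff.1 ((hmemBs b).1 hb).2 with h1 | h1
        · rw [h1, hr] at hmb
          exact hnb.1 hmb.symm
        · rw [hmb] at h1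
          exact haP.1 h1
      · intro a ha
        rw [Finset.mem_erase] at ha
        have hnb : ¬ bs m r P a = true := fun hb' => ha.1 (hself b a ha.2 hb')
        rw [Bool.not_eq_true, bs_false] at hnb
        have haP := ((hmemBl b a).1 ha.2)
        have := h.reg a a (h.mem_self haP.1) a (h.mem_self haP.1) hnb.1
        exact fun e => this e.symm
    intro h1
    have h2 := Finset.card_erase_add_one hbBl
    rw [← h2] at h1
    exact (Nat.even_add_one.1 h1) heven
  have hex : ∀ b ∈ Bs, ∃ x ∈ Bl b, m' x ∉ Bl b := by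
    intro b hb
    by_contra hcon
    push Not at hcon
    exact hodd b hb (even_card_of_involution m' hcon (fun a _ => hm' a)
      (fun a ha => hcov a ((hmemBl b a).1 ha).1))
  choose! xb hxb hxb' using hex
  have hmaps : ∀ b ∈ Bs, m (m' (xb b)) ∈ Bs.erase r := by
    intro b hb
    have hx := (hmemBl b _).1 (hxb b hb)
    have hadj := hadj' (xb b) (hcov _ hx.1)
    have hy : P (m' (xb b)) = [] := by
      by_contra hy
      apply hxb' b hb
      rw [hmemBl]
      exact ⟨hy, by rw [← hB _ _ hx.1 hy hadj]; exact hx.2⟩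
    have hne : m (m' (xb b)) ≠ m' (xb b) := by
      intro e
      have := hS _ _ hx.1 hadj e
      rw [this] at hy
      exact hrr hy
    have hc : P (m (m' (xb b))) ≠ [] := fun e => hne (hG _ _ hx.1 hadj hy e)
    rw [Finset.mem_erase, hmemBs, bs_iff, hm]
    refine ⟨?_, hc, Or.inr hy⟩
    intro e
    have : m' (xb b) = r := by rw [← hm (m' (xb b)), e, hr]
    rw [this] at hy
    exact hrr hy
  have hinj : Set.InjOn (fun b => m (m' (xb b))) (Bs : Set V) := by
    intro b hb c hc e
    have e1 : m' (xb b) = m' (xb c) := by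
      have := congrArg m e
      simpa only [hm] using this
    have e2 : xb b = xb c := by rw [← hm' (xb b), e1, hm']
    have h1 := ((hmemBl b _).1 (hxb b hb)).2
    have h2 := ((hmemBl c _).1 (hxb c hc)).2
    rw [e2, h2] at h1
    exact (Option.some.inj h1).symm
  have hcard := Finset.card_le_card_of_injOn _ hmaps hinj
  have hrB : r ∈ Bs := (hmemBs r).2 ⟨hrr, bs_iff.2 (Or.inl rfl)⟩
  have := Finset.card_erase_lt_of_mem hrB
  omega

end Pool.Agent.Work.PolyTime.Blossom
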