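import Pool.Agent.Work.PolyTime.Blossom.Search

/-!
Changing a matching along an alternating path.
-/

set_option autoImplicit false

namespace Pool.Agent.Work.PolyTime.Blossom

variable {V : Type*} [DecidableEq V]

/-- The matching `m` changed along the path given by the list of its even vertices. -/
def flip (m : V → V) : List V → V → V
  | a :: b :: l, v => if v = a then a else if v = m a then b else if v = b then m a
      else flip m (b :: l) v
  | _, v => m v

/-- `m` is a matching of the graph. -/
structure IsMat (adj : V → V → Prop) (m : V → V) : Prop where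
  invol : ∀ v, m (m v) = v
  adj : ∀ v, m v ≠ v → adj v (m v)

variable {adj : V → V → Prop} {m : V → V} {r : V}

/-- Changing a matching along an alternating path: the exposed vertex `r` is covered instead of
the first vertex `x`. -/
theorem flip_spec (hm : IsMat adj m) (hr : m r = r) (hsymm : ∀ u v, adj u v → adj v u) :
    ∀ (l : List V) (x : V), l.head? = some x → l.getLast? = some r →
      l.IsChain (fun a b => adj (m a) b) → l.Nodup →
      (∀ a ∈ l, ∀ b ∈ l, b ≠ r → a ≠ m b) →
      IsMat adj (flip m l) ∧ flip m l x = x ∧
        (∀ v, v ∉ l → (∀ a ∈ l, v ≠ m a) → flip m l v = m v) ∧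
        (∀ v, v ∈ l ∨ (∃ a ∈ l, v = m a) →
          flip m l v ∈ l ∨ ∃ a ∈ l, flip m l v = m a) ∧
        (∀ v, v ≠ x → (m v ≠ v ∨ v = r) → flip m l v ≠ v) := by
  intro l
  induction l with
  | nil => intro x h; simp at h
  | cons a l ih =>
    intro x hx hl hch hnd hreg
    rw [List.head?_cons, Option.some.injEq] at hx
    subst hx
    cases l with
    | nil =>
      rw [List.getLast?_singleton, Option.some.injEq] at hl
      subst hl
      have e : ∀ v, flip m [a] v = m v := fun v => rfl
      have e' : flip m [a] = m := funext e
      rw [e']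
      refine ⟨hm, hr, fun _ _ _ => rfl, ?_, ?_⟩
      · rintro v (hv | ⟨b, hb, rfl⟩)
        · rw [List.mem_singleton] at hv
          subst hv
          exact Or.inl (by rw [hr]; simp)
        · rw [List.mem_singleton] at hb
          subst hb
          exact Or.inl (by rw [hr, hr]; simp)
      · rintro v hv (h1 | h1)
        · exact h1
        · exact absurd h1 hv
    | cons b l =>
      have hl' : (b :: l).getLast? = some r := by rw [← hl, List.getLast?_cons_cons]
      rw [List.nodup_cons] at hnd
      have hrl : r ∈ b :: l := List.mem_of_getLast? hl'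
      have har : a ≠ r := fun e => hnd.1 (e ▸ hrl)
      obtain ⟨hM, hMb, hMold, hMin, hMne⟩ := ih b rfl hl' (List.isChain_cons_cons.1 hch).2 hnd.2
        (fun c hc d hd hdr => hreg c (List.mem_cons_of_mem _ hc) d (List.mem_cons_of_mem _ hd) hdr)
      set M := flip m (b :: l) with hMdef
      have hdef : ∀ v, flip m (a :: b :: l) v = if v = a then a else if v = m a then b
          else if v = b then m a else M v := fun v => rfl
      have hama : m a ≠ a := fun e => hreg a (by simp) a (by simp) har e.symm
      -- `a` and `m a` are not on the path of `b`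
      have hinj : ∀ u v, m u = m v → u = v := fun u v huv => by
        rw [← hm.invol u, huv, hm.invol]
      have ha1 : a ∉ b :: l := hnd.1
      have ha2 : ∀ c ∈ b :: l, a ≠ m c := by
        intro c hc
        by_cases hcr : c = r
        · subst hcr
          rw [hr]
          exact har
        · exact hreg a (by simp) c (List.mem_cons_of_mem _ hc) hcr
      have hma1 : m a ∉ b :: l := fun hc =>
        hreg (m a) (List.mem_cons_of_mem _ hc) a (by simp) har rfl
      have hma2 : ∀ c ∈ b :: l, m a ≠ m c := fun c hc e => ha1 (hinj _ _ e ▸ hc)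
      have hMa : M a = m a := hMold a ha1 ha2
      have hMma : M (m a) = a := by rw [hMold (m a) hma1 hma2, hm.invol]
      have hba : b ≠ a := fun e => ha1 (by rw [← e]; simp)
      have hbma : b ≠ m a := fun e => hma1 (by rw [← e]; simp)
      have hadj : adj (m a) b := (List.isChain_cons_cons.1 hch).1
      -- values of `M` at other vertices
      have hMother : ∀ v, v ≠ a → v ≠ m a → v ≠ b → M v ≠ a ∧ M v ≠ m a ∧ M v ≠ b := by
        intro v h1 h2 h3
        refine ⟨fun e => h2 ?_, fun e => h1 ?_, fun e => h3 ?_⟩
        · rw [← hM.invol v, e, hMa]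
        · rw [← hM.invol v, e, hMma]
        · rw [← hM.invol v, e, hMb]
      refine ⟨⟨?_, ?_⟩, ?_, ?_, ?_, ?_⟩
      · intro v
        rw [hdef v]
        split_ifs with h1 h2 h3
        · rw [hdef, if_pos rfl]; exact h1.symm
        · rw [hdef, if_neg hba, if_neg hbma, if_pos rfl]; exact h2.symm
        · rw [hdef, if_neg hama, if_pos rfl]; exact h3.symm
        · obtain ⟨h4, h5, h6⟩ := hMother v h1 h2 h3
          rw [hdef, if_neg h4, if_neg h5, if_neg h6, hM.invol]
      · intro v
        rw [hdef v]
        split_ifs with h1 h2 h3
        · intro h; exact absurd h1.symm h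
        · intro _; rw [h2]; exact hadj
        · intro _; rw [h3]; exact hsymm _ _ hadj
        · exact hM.adj v
      · rw [hdef, if_pos rfl]
      · intro v hv1 hv2
        rw [List.mem_cons, not_or] at hv1
        rw [hdef, if_neg hv1.1, if_neg (hv2 a (by simp)), if_neg (fun e => hv1.2 (by rw [e]; simp))]
        exact hMold v hv1.2 (fun c hc => hv2 c (List.mem_cons_of_mem _ hc))
      · intro v hv
        rw [hdef]
        split_ifs with h1 h2 h3
        · exact Or.inl (by simp)
        · exact Or.inl (by simp)
        · exact Or.inr ⟨a, by simp, rfl⟩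
        · have hv' : v ∈ b :: l ∨ ∃ c ∈ b :: l, v = m c := by
            rcases hv with hv | ⟨c, hc, rfl⟩
            · exact Or.inl ((List.mem_cons.1 hv).resolve_left h1)
            · rcases List.mem_cons.1 hc with rfl | hc
              · exact absurd rfl h2
              · exact Or.inr ⟨c, hc, rfl⟩
          rcases hMin v hv' with h4 | ⟨c, hc, h4⟩
          · exact Or.inl (List.mem_cons_of_mem _ h4)
          · exact Or.inr ⟨c, List.mem_cons_of_mem _ hc, h4⟩
      · intro v hva hv
        rw [hdef, if_neg hva]
        split_ifs with h2 h3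
        · rw [h2]; exact hbma
        · rw [h3]; exact hbma.symm
        · exact hMne v h3 hv

/-- Matching the exposed vertices `x` and `s`. -/
def join (m : V → V) (x s : V) (v : V) : V := if v = x then s else if v = s then x else m v

theorem join_spec (hm : IsMat adj m) (hsymm : ∀ u v, adj u v → adj v u) {x s : V}
    (hx : m x = x) (hs : m s = s) (hadj : adj x s) (hne : x ≠ s) :
    IsMat adj (join m x s) ∧ ∀ v, (m v ≠ v ∨ v = x ∨ v = s) → join m x s v ≠ v := by
  have hother : ∀ v, v ≠ x → v ≠ s → m v ≠ x ∧ m v ≠ s := by
    intro v h1 h2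
    refine ⟨fun e => h1 ?_, fun e => h2 ?_⟩
    · rw [← hm.invol v, e, hx]
    · rw [← hm.invol v, e, hs]
  refine ⟨⟨?_, ?_⟩, ?_⟩
  · intro v
    unfold join
    by_cases h1 : v = x
    · rw [if_pos h1, if_neg hne.symm, if_pos rfl]; exact h1.symm
    · by_cases h2 : v = s
      · rw [if_neg h1, if_pos h2, if_pos rfl]; exact h2.symm
      · obtain ⟨h3, h4⟩ := hother v h1 h2
        rw [if_neg h1, if_neg h2, if_neg h3, if_neg h4, hm.invol]
  · intro v
    unfold join
    split_ifs with h1 h2
    · intro _; rw [h1]; exact hadj
    · intro _; rw [h2]; exact hsymm _ _ hadj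
    · exact hm.adj v
  · intro v hv
    unfold join
    split_ifs with h1 h2
    · rw [h1]; exact hne.symm
    · rw [h2]; exact hne
    · rcases hv with hv | hv | hv
      · exact hv
      · exact absurd hv h1
      · exact absurd hv h2

end Pool.Agent.Work.PolyTime.Blossom
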