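import Pool.Agent.Work.PolyTime.Blossom.Search

/-!
The blossom step keeps the invariants of the search for alternating paths.
-/

set_option autoImplicit false

namespace Pool.Agent.Work.PolyTime.Blossom

variable {V : Type*} [DecidableEq V] {adj : V → V → Prop} {m : V → V} {r : V} {P : V → List V}

/-- The vertex is a base of exactly one of `x` and `y`. -/
def InD (m : V → V) (r : V) (P : V → List V) (x y u : V) : Prop :=
  (u ∈ B m r P x ∧ u ∉ B m r P y) ∨ (u ∈ B m r P y ∧ u ∉ B m r P x)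

instance (m : V → V) (r : V) (P : V → List V) (x y u : V) : Decidable (InD m r P x y u) := by
  unfold InD; infer_instance

theorem stepB_comm (x y : V) : stepB m r P x y = stepB m r P y x := by
  funext v
  unfold stepB
  by_cases h1 : m v ∈ B m r P x <;> by_cases h2 : m v ∈ B m r P y <;> simp [h1, h2]

theorem InD.symm {x y u : V} (h : InD m r P x y u) : InD m r P y x u := Or.symm h

theorem stepB_old {x y v : V} (hv : P v ≠ []) : stepB m r P x y v = P v := if_pos hv

theorem pre_ne_nil {b : V} {l₁ l₂ acc : List V} (h : b ∉ l₁) :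
    pre m b (l₁ ++ b :: l₂) acc ≠ [] := by
  rw [pre_eq _ _ _ h]; simp

theorem stepB_new {x y v : V} (hv : P v = []) (h1 : m v ∈ B m r P x) (h2 : m v ∉ B m r P y) :
    stepB m r P x y v = pre m (m v) (P x) (P y) := by
  unfold stepB
  rw [if_neg (by simpa using hv), if_pos ⟨h1, h2⟩]

namespace Inv

variable (h : Inv adj m r P)

include h

theorem notMem_pre {x b : V} {l₁ l₂ : List V} (e : P x = l₁ ++ b :: l₂) : b ∉ l₁ := by
  have := h.nodup x
  rw [e] at this
  intro hb
  exact (List.nodup_append.1 this).2.2 b hb b (by simp) rfl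

theorem stepB_eq {x y b : V} {l₁ l₂ : List V} (hm : ∀ v, m (m v) = v) (hy : P y ≠ [])
    (e : P x = l₁ ++ b :: l₂) (hb : bs m r P b = true) (hb' : b ∉ B m r P y) :
    Blossom.stepB m r P x y (m b) = ((l₁ ++ [b]).map m).reverse ++ P y := by
  have hbr : b ≠ r := h.key2 hy e hb hb' (by simp)
  have hbx : b ∈ B m r P x := by
    rw [B, List.mem_filter]
    exact ⟨by rw [e]; simp, hb⟩
  have hPb : P (m b) = [] := (bs_iff.1 hb).resolve_left hbr
  rw [stepB_new hPb (by rwa [hm]) (by rwa [hm]), hm, e, pre_eq _ _ _ (h.notMem_pre e)]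

theorem not_inD_root {x y : V} (hx : P x ≠ []) (hy : P y ≠ []) : ¬ InD m r P x y r := by
  rintro (⟨-, h1⟩ | ⟨-, h1⟩)
  · exact h1 (h.root_mem_B hy)
  · exact h1 (h.root_mem_B hx)

theorem stepB_nil {x y v : V} (hm : ∀ v, m (m v) = v) (hx : P x ≠ []) (hy : P y ≠ []) :
    Blossom.stepB m r P x y v = [] ↔ P v = [] ∧ ¬ InD m r P x y (m v) := by
  constructor
  · intro h1
    have hv : P v = [] := by
      by_contra hv
      rw [stepB_old hv] at h1
      exact hv h1
    refine ⟨hv, ?_⟩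
    rintro (⟨h2, h3⟩ | ⟨h2, h3⟩)
    · obtain ⟨l₁, l₂, e⟩ := List.append_of_mem (mem_B.1 h2).1
      have := h.stepB_eq (x := x) hm hy e (bs_iff.2 (mem_B.1 h2).2) h3
      rw [hm, h1] at this
      simp at this
    · obtain ⟨l₁, l₂, e⟩ := List.append_of_mem (mem_B.1 h2).1
      have := h.stepB_eq (x := y) hm hx e (bs_iff.2 (mem_B.1 h2).2) h3
      rw [hm, stepB_comm, h1] at this
      simp at this
  · rintro ⟨hv, h1⟩
    unfold Blossom.stepB
    rw [if_neg (by simpa using hv), if_neg, if_neg]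
    · exact fun h2 => h1 (Or.inr h2)
    · exact fun h2 => h1 (Or.inl h2)

theorem bs_stepB {x y a : V} (hm : ∀ v, m (m v) = v) (hx : P x ≠ []) (hy : P y ≠ []) :
    bs m r (Blossom.stepB m r P x y) a = true ↔ bs m r P a = true ∧ ¬ InD m r P x y a := by
  rw [bs_iff, bs_iff, h.stepB_nil hm hx hy, hm]
  constructor
  · rintro (rfl | ⟨h1, h2⟩)
    · exact ⟨Or.inl rfl, h.not_inD_root hx hy⟩
    · exact ⟨Or.inr h1, h2⟩
  · rintro ⟨rfl | h1, h2⟩
    · exact Or.inl rfl
    · exact Or.inr ⟨h1, h2⟩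

/-- Filtering the new bases. -/
theorem filter_stepB {x y : V} (hm : ∀ v, m (m v) = v) (hx : P x ≠ []) (hy : P y ≠ [])
    (l : List V) : l.filter (bs m r (Blossom.stepB m r P x y)) =
      (l.filter (bs m r P)).filter (fun u => !decide (InD m r P x y u)) := by
  rw [List.filter_filter]
  refine List.filter_congr fun u _ => ?_
  rw [Bool.eq_iff_iff, h.bs_stepB hm hx hy]
  simp [and_comm]

theorem B_old {x y z : V} (hm : ∀ v, m (m v) = v) (hx : P x ≠ []) (hy : P y ≠ [])
    (hz : P z ≠ []) : B m r (Blossom.stepB m r P x y) z =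
      (B m r P z).filter (fun u => !decide (InD m r P x y u)) := by
  rw [B, stepB_old hz, h.filter_stepB hm hx hy, B]

theorem B_xy {x y : V} (hm : ∀ v, m (m v) = v) (hx : P x ≠ []) (hy : P y ≠ []) :
    B m r (Blossom.stepB m r P x y) x = B m r (Blossom.stepB m r P x y) y := by
  rw [h.B_old hm hx hy hx, h.B_old hm hx hy hy]
  have e1 : (B m r P x).filter (fun u => !decide (InD m r P x y u)) =
      (B m r P x).filter (fun u => decide (u ∈ B m r P y)) := by
    refine List.filter_congr fun u hu => ?_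
    rw [Bool.eq_iff_iff]
    simp [InD, hu]
  have e2 : (B m r P y).filter (fun u => !decide (InD m r P x y u)) =
      (B m r P y).filter (fun u => decide (u ∈ B m r P x)) := by
    refine List.filter_congr fun u hu => ?_
    rw [Bool.eq_iff_iff]
    simp [InD, hu]
  rw [e1, e2, h.B_common]

section

variable {x y b : V} {l₁ l₂ : List V} (hm : ∀ v, m (m v) = v) (hx : P x ≠ []) (hy : P y ≠ [])
  (e : P x = l₁ ++ b :: l₂) (hb : bs m r P b = true) (hb' : b ∉ B m r P y)

include hm hx hy e hb hb'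

theorem nb {u : V} (hu : u ∈ l₁ ++ [b]) : bs m r (Blossom.stepB m r P x y) u = false := by
  rw [← Bool.not_eq_true, h.bs_stepB hm hx hy]
  rintro ⟨h1, h2⟩
  refine h2 (Or.inl ⟨?_, ?_⟩)
  · rw [B, List.mem_filter]
    exact ⟨h.mem_of_pre e hu, h1⟩
  · intro h3
    exact h.key3 e hb hb' hu (mem_B.1 h3).1

theorem nbm {u : V} (hu : u ∈ l₁ ++ [b]) : bs m r (Blossom.stepB m r P x y) (m u) = false := by
  rw [bs_false, hm]
  refine ⟨fun h1 => ?_, ?_⟩
  · have h2 := h.key4 hy e hb hb' hu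
    rw [h1] at h2
    exact h2 (h.mem_root hy)
  · rw [stepB_old (h.outer x u (h.mem_of_pre e hu))]
    exact h.outer x u (h.mem_of_pre e hu)

theorem B_pre {a : V} (ha : a ∈ l₁ ++ [b]) : B m r (Blossom.stepB m r P x y) a =
    B m r (Blossom.stepB m r P x y) x := by
  have hd : ∃ s t, P x = s ++ a :: t ∧ ∀ u ∈ s, u ∈ l₁ ++ [b] := by
    rcases List.mem_append.1 ha with ha | ha
    · obtain ⟨s, t, rfl⟩ := List.append_of_mem ha
      exact ⟨s, t ++ b :: l₂, by rw [e]; simp, fun u hu => by simp [hu]⟩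
    · rw [List.mem_singleton] at ha
      subst ha
      exact ⟨l₁, l₂, e, fun u hu => by simp [hu]⟩
  obtain ⟨s, t, e', hs⟩ := hd
  have haP : P a ≠ [] := h.outer x a (h.mem_of_pre e ha)
  rw [h.B_old hm hx hy haP, h.d1 x s a t e', ← h.filter_stepB hm hx hy]
  conv_rhs => rw [B, stepB_old hx, e', List.filter_append, List.filter_eq_nil_iff.2 (fun u hu => by
    rw [h.nb hm hx hy e hb hb' (hs u hu)]; simp), List.nil_append]

theorem B_new : B m r (Blossom.stepB m r P x y) (m b) = B m r (Blossom.stepB m r P x y) y := by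
  conv_lhs => rw [B, h.stepB_eq hm hy e hb hb', List.filter_append]
  rw [List.filter_eq_nil_iff.2, List.nil_append, B, stepB_old hy]
  intro u hu
  rw [List.mem_reverse, List.mem_map] at hu
  obtain ⟨a, ha, rfl⟩ := hu
  rw [h.nbm hm hx hy e hb hb' ha]
  simp

theorem B_prem {a : V} (ha : a ∈ l₁ ++ [b]) : B m r (Blossom.stepB m r P x y) (m a) =
    B m r (Blossom.stepB m r P x y) x := by
  have haP : P a ≠ [] := h.outer x a (h.mem_of_pre e ha)
  have har : a ≠ r := h.key2 hy e hb hb' ha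
  by_cases hma : P (m a) = []
  · obtain ⟨s, t, e'⟩ := List.append_of_mem (h.mem_of_pre e ha)
    have hay : a ∉ B m r P y := fun h1 => h.key3 e hb hb' ha (mem_B.1 h1).1
    rw [h.B_new hm hx hy e' (bs_iff.2 (Or.inr hma)) hay, h.B_xy hm hx hy]
  · rw [h.B_old hm hx hy hma, h.d2 a haP har hma, ← h.B_old hm hx hy haP,
      h.B_pre hm hx hy e hb hb' ha]

theorem new_outer {v : V} (hv : v ∈ ((l₁ ++ [b]).map m).reverse ++ P y) :
    Blossom.stepB m r P x y v ≠ [] := by
  rw [Ne, h.stepB_nil hm hx hy, not_and_or, not_not]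
  rcases List.mem_append.1 hv with hv | hv
  · rw [List.mem_reverse, List.mem_map] at hv
    obtain ⟨a, ha, rfl⟩ := hv
    by_cases hma : P (m a) = []
    · right
      rw [hm]
      exact Or.inl ⟨mem_B.2 ⟨h.mem_of_pre e ha, Or.inr hma⟩,
        fun h1 => h.key3 e hb hb' ha (mem_B.1 h1).1⟩
    · exact Or.inl hma
  · exact Or.inl (h.outer y v hv)

theorem new_chain (hsymm : ∀ u v, adj u v → adj v u) (hadj : adj x y) :
    (((l₁ ++ [b]).map m).reverse ++ P y).IsChain (fun a b => adj (m a) b) := by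
  have hinj : (l₁ ++ [b]).IsChain (fun a b => adj (m a) b) := by
    have := h.chain x
    rw [e, show l₁ ++ b :: l₂ = (l₁ ++ [b]) ++ l₂ by simp] at this
    exact this.left_of_append
  refine List.IsChain.append ?_ (h.chain y) ?_
  · rw [List.isChain_reverse, List.isChain_map]
    refine hinj.imp ?_
    intro a c hac
    rw [hm]
    exact hsymm _ _ hac
  · intro u hu w hw
    rw [h.head y hy, Option.mem_some_iff] at hw
    subst hw
    have h1 := h.head x hx
    rw [e] at h1
    have h2 : (l₁ ++ [b]).head? = some x := by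
      rw [← h1]
      cases l₁ <;> simp
    rw [List.getLast?_reverse, List.head?_map, h2, Option.map_some, Option.mem_some_iff] at hu
    subst hu
    rw [hm]
    exact hadj

theorem new_nodup : (((l₁ ++ [b]).map m).reverse ++ P y).Nodup := by
  have hinj : Function.Injective m := fun u v huv => by rw [← hm u, huv, hm]
  refine List.nodup_append.2 ⟨?_, h.nodup y, ?_⟩
  · rw [List.nodup_reverse, List.nodup_map_iff hinj]
    have := h.nodup x
    rw [e, show l₁ ++ b :: l₂ = (l₁ ++ [b]) ++ l₂ by simp] at this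
    exact (List.nodup_append.1 this).1
  · intro u hu w hw
    rw [List.mem_reverse, List.mem_map] at hu
    obtain ⟨a, ha, rfl⟩ := hu
    rintro rfl
    exact h.key4 hy e hb hb' ha hw

theorem new_reg {a c : V} (ha : a ∈ ((l₁ ++ [b]).map m).reverse ++ P y)
    (hc : c ∈ ((l₁ ++ [b]).map m).reverse ++ P y) (hcr : c ≠ r) : a ≠ m c := by
  rw [List.mem_append, List.mem_reverse, List.mem_map] at ha hc
  rcases ha with ⟨a, ha, rfl⟩ | ha <;> rcases hc with ⟨c, hc, rfl⟩ | hc
  · rw [hm]
    intro h1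
    exact h.reg x c (h.mem_of_pre e hc) a (h.mem_of_pre e ha) (h.key2 hy e hb hb' ha) h1.symm
  · intro h1
    have : a = c := by rw [← hm a, h1, hm]
    exact h.key3 e hb hb' ha (this ▸ hc)
  · rw [hm]
    rintro rfl
    exact h.key3 e hb hb' hc ha
  · exact h.reg y a ha c hc hcr

theorem new_d1 {k₁ k₂ : List V} {a : V}
    (ek : ((l₁ ++ [b]).map m).reverse ++ P y = k₁ ++ a :: k₂) :
    B m r (Blossom.stepB m r P x y) a =
      (a :: k₂).filter (bs m r (Blossom.stepB m r P x y)) := by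
  rcases List.append_eq_append_iff.1 ek with ⟨c, ec1, ec2⟩ | ⟨c, ec1, ec2⟩
  · -- the position is in the second part
    have haP : P a ≠ [] := h.outer y a (by rw [ec2]; simp)
    rw [h.B_old hm hx hy haP, h.d1 y c a k₂ ec2, ← h.filter_stepB hm hx hy]
  · cases c with
    | nil =>
      rw [List.nil_append] at ec2
      have haP : P a ≠ [] := h.outer y a (by rw [← ec2]; simp)
      rw [h.B_old hm hx hy haP, h.d1 y [] a k₂ (by rw [← ec2]; simp),
        ← h.filter_stepB hm hx hy]
    | cons c' c =>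
      rw [List.cons_append, List.cons.injEq] at ec2
      obtain ⟨rfl, ec2⟩ := ec2
      have hmem : a ∈ ((l₁ ++ [b]).map m).reverse := by rw [ec1]; simp
      rw [ec2, ← List.cons_append, List.filter_append, List.filter_eq_nil_iff.2, List.nil_append]
      · rw [List.mem_reverse, List.mem_map] at hmem
        obtain ⟨a', ha', rfl⟩ := hmem
        rw [h.B_prem hm hx hy e hb hb' ha', h.B_xy hm hx hy, B, stepB_old hy]
      · intro u hu
        have hu' : u ∈ ((l₁ ++ [b]).map m).reverse := by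
          rw [ec1]; exact List.mem_append_right _ hu
        rw [List.mem_reverse, List.mem_map] at hu'
        obtain ⟨a', ha', rfl⟩ := hu'
        rw [h.nbm hm hx hy e hb hb' ha']
        simp

end

/-- The blossom step keeps the invariants. -/
theorem stepB (hm : ∀ v, m (m v) = v) (hsymm : ∀ u v, adj u v → adj v u) {x y : V}
    (hx : P x ≠ []) (hy : P y ≠ []) (hadj : adj x y) :
    Inv adj m r (Blossom.stepB m r P x y) := by
  have hrr : P r ≠ [] := by rw [h.root]; simp
  -- the cases for a vertex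
  have hcases : ∀ v, Blossom.stepB m r P x y v ≠ [] → P v ≠ [] ∨
      (∃ b l₁ l₂, v = m b ∧ P x = l₁ ++ b :: l₂ ∧ bs m r P b = true ∧ b ∉ B m r P y) ∨
      (∃ b l₁ l₂, v = m b ∧ P y = l₁ ++ b :: l₂ ∧ bs m r P b = true ∧ b ∉ B m r P x) := by
    intro v hv
    rw [Ne, h.stepB_nil hm hx hy, not_and_or, not_not] at hv
    rcases hv with hv | hv | hv
    · exact Or.inl hv
    · obtain ⟨l₁, l₂, e⟩ := List.append_of_mem (mem_B.1 hv.1).1
      exact Or.inr (Or.inl ⟨m v, l₁, l₂, (hm v).symm, e, bs_iff.2 (mem_B.1 hv.1).2, hv.2⟩)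
    · obtain ⟨l₁, l₂, e⟩ := List.append_of_mem (mem_B.1 hv.1).1
      exact Or.inr (Or.inr ⟨m v, l₁, l₂, (hm v).symm, e, bs_iff.2 (mem_B.1 hv.1).2, hv.2⟩)
  have hd1 : ∀ v l₁ a l₂, Blossom.stepB m r P x y v = l₁ ++ a :: l₂ →
      B m r (Blossom.stepB m r P x y) a = (a :: l₂).filter (bs m r (Blossom.stepB m r P x y)) := by
    intro v k₁ a k₂ ek
    rcases hcases v (by rw [ek]; simp) with hv | ⟨b, l₁, l₂, rfl, e, hb, hb'⟩ |
      ⟨b, l₁, l₂, rfl, e, hb, hb'⟩
    · rw [stepB_old hv] at ek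
      have haP : P a ≠ [] := h.outer v a (by rw [ek]; simp)
      rw [h.B_old hm hx hy haP, h.d1 v k₁ a k₂ ek, ← h.filter_stepB hm hx hy]
    · rw [h.stepB_eq hm hy e hb hb'] at ek
      exact h.new_d1 hm hx hy e hb hb' ek
    · rw [stepB_comm] at ek ⊢
      rw [h.stepB_eq hm hx e hb hb'] at ek
      exact h.new_d1 hm hy hx e hb hb' ek
  refine ⟨?_, ?_, ?_, ?_, ?_, ?_, ?_, hd1, ?_⟩
  · rw [stepB_old hrr, h.root]
  · intro v hv
    rcases hcases v hv with hv | ⟨b, l₁, l₂, rfl, e, hb, hb'⟩ | ⟨b, l₁, l₂, rfl, e, hb, hb'⟩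
    · rw [stepB_old hv]; exact h.head v hv
    · rw [h.stepB_eq hm hy e hb hb']; simp
    · rw [stepB_comm, h.stepB_eq hm hx e hb hb']; simp
  · intro v hv
    rcases hcases v hv with hv | ⟨b, l₁, l₂, rfl, e, hb, hb'⟩ | ⟨b, l₁, l₂, rfl, e, hb, hb'⟩
    · rw [stepB_old hv]; exact h.last v hv
    · rw [h.stepB_eq hm hy e hb hb', List.getLast?_append, h.last y hy]; rfl
    · rw [stepB_comm, h.stepB_eq hm hx e hb hb', List.getLast?_append, h.last x hx]; rfl
  · intro v
    by_cases hv0 : Blossom.stepB m r P x y v = []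
    · rw [hv0]; exact List.IsChain.nil
    rcases hcases v hv0 with hv | ⟨b, l₁, l₂, rfl, e, hb, hb'⟩ | ⟨b, l₁, l₂, rfl, e, hb, hb'⟩
    · rw [stepB_old hv]; exact h.chain v
    · rw [h.stepB_eq hm hy e hb hb']
      exact h.new_chain hm hx hy e hb hb' hsymm hadj
    · rw [stepB_comm, h.stepB_eq hm hx e hb hb']
      exact h.new_chain hm hy hx e hb hb' hsymm (hsymm _ _ hadj)
  · intro v a ha
    rcases hcases v (List.ne_nil_of_mem ha) with hv | ⟨b, l₁, l₂, rfl, e, hb, hb'⟩ |
      ⟨b, l₁, l₂, rfl, e, hb, hb'⟩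
    · rw [stepB_old hv] at ha
      have := h.outer v a ha
      rwa [stepB_old this]
    · rw [h.stepB_eq hm hy e hb hb'] at ha
      exact h.new_outer hm hx hy e hb hb' ha
    · rw [stepB_comm] at ha ⊢
      rw [h.stepB_eq hm hx e hb hb'] at ha
      exact h.new_outer hm hy hx e hb hb' ha
  · intro v
    by_cases hv0 : Blossom.stepB m r P x y v = []
    · rw [hv0]; exact List.nodup_nil
    rcases hcases v hv0 with hv | ⟨b, l₁, l₂, rfl, e, hb, hb'⟩ | ⟨b, l₁, l₂, rfl, e, hb, hb'⟩
    · rw [stepB_old hv]; exact h.nodup v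
    · rw [h.stepB_eq hm hy e hb hb']
      exact h.new_nodup hm hx hy e hb hb'
    · rw [stepB_comm, h.stepB_eq hm hx e hb hb']
      exact h.new_nodup hm hy hx e hb hb'
  · intro v a ha c hc hcr
    rcases hcases v (List.ne_nil_of_mem ha) with hv | ⟨b, l₁, l₂, rfl, e, hb, hb'⟩ |
      ⟨b, l₁, l₂, rfl, e, hb, hb'⟩
    · rw [stepB_old hv] at ha hc
      exact h.reg v a ha c hc hcr
    · rw [h.stepB_eq hm hy e hb hb'] at ha hc
      exact h.new_reg hm hx hy e hb hb' ha hc hcr
    · rw [stepB_comm, h.stepB_eq hm hx e hb hb'] at ha hc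
      exact h.new_reg hm hy hx e hb hb' ha hc hcr
  · intro a ha har hma
    rcases hcases a ha with hv | ⟨b, l₁, l₂, rfl, e, hb, hb'⟩ | ⟨b, l₁, l₂, rfl, e, hb, hb'⟩
    · rcases hcases (m a) hma with hv' | ⟨b, l₁, l₂, eb, e, hb, hb'⟩ | ⟨b, l₁, l₂, eb, e, hb, hb'⟩
      · rw [h.B_old hm hx hy hv, h.B_old hm hx hy hv', h.d2 a hv har hv']
      · have : a = b := by rw [← hm a, eb, hm]
        subst this
        rw [h.B_new hm hx hy e hb hb', h.B_pre hm hx hy e hb hb' (a := a) (by simp),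
          h.B_xy hm hx hy]
      · have : a = b := by rw [← hm a, eb, hm]
        subst this
        rw [stepB_comm, h.B_new hm hy hx e hb hb', h.B_pre hm hy hx e hb hb' (a := a) (by simp),
          h.B_xy hm hy hx]
    · have hmb : m (m b) = b := hm b
      rw [hmb, h.B_new hm hx hy e hb hb', h.B_pre hm hx hy e hb hb' (a := b) (by simp),
        h.B_xy hm hx hy]
    · have hmb : m (m b) = b := hm b
      rw [hmb, stepB_comm, h.B_new hm hy hx e hb hb', h.B_pre hm hy hx e hb hb' (a := b)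
        (by simp), h.B_xy hm hy hx]

end Inv

end Pool.Agent.Work.PolyTime.Blossom
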