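import Pool.Agent.Work.PolyTime.Blossom.Grow
import Pool.Agent.Work.PolyTime.Blossom.Shrink
import Pool.Agent.Work.PolyTime.Blossom.Fail
import Pool.Agent.Work.PolyTime.Blossom.Flip

/-!
The algorithm: matchings that cover a set of required vertices in a general graph. Search.
-/

set_option autoImplicit false

namespace Pool.Agent.Work.PolyTime.Blossom

/-- A graph: number of vertices and list of edges. -/
abbrev Gr : Type := ℕ × List (ℕ × ℕ)

/-- Adjacency. -/
def eB (x : Gr) (u v : ℕ) : Bool :=
  decide (u < x.1) && (decide (v < x.1) && (!decide (u = v) &&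
    (decide ((u, v) ∈ x.2) || decide ((v, u) ∈ x.2))))

/-- The graph given by the number of vertices and the list of edges. -/
def Ad (x : Gr) (u v : ℕ) : Prop := eB x u v = true

theorem ad_iff {x : Gr} {u v : ℕ} :
    Ad x u v ↔ u < x.1 ∧ v < x.1 ∧ u ≠ v ∧ ((u, v) ∈ x.2 ∨ (v, u) ∈ x.2) := by
  simp only [Ad, eB, Bool.and_eq_true, decide_eq_true_eq, Bool.not_eq_true',
    decide_eq_false_iff_not, Bool.or_eq_true, ne_eq]

theorem Ad.symm {x : Gr} {u v : ℕ} (h : Ad x u v) : Ad x v u := by
  rw [ad_iff] at h ⊢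
  exact ⟨h.2.1, h.1, h.2.2.1.symm, h.2.2.2.symm⟩

/-- The path of a vertex in a state of the search. -/
def pth (S : List (List ℕ)) (z : ℕ) : List ℕ := S.getD z []

/-- The partner of a vertex. -/
def mat (M : List ℕ) (v : ℕ) : ℕ := M.getD v v

/-- Make a path short. -/
def gd (n : ℕ) (l : List ℕ) : List ℕ := (l.filter fun a => decide (a < n)).take n

/-- The table of a function. -/
def tab (n : ℕ) (f : ℕ → List ℕ) : List (List ℕ) := (List.range n).map fun z => gd n (f z)

/-- All pairs of vertices. -/
def pairsOf (n : ℕ) : List (ℕ × ℕ) := (List.range n).flatMap fun x => (List.range n).map fun y =>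
  (x, y)

theorem mem_pairsOf {n : ℕ} {p : ℕ × ℕ} : p ∈ pairsOf n ↔ p.1 < n ∧ p.2 < n := by
  obtain ⟨a, b⟩ := p
  simp only [pairsOf, List.mem_flatMap, List.mem_range, List.mem_map, Prod.mk.injEq]
  constructor
  · rintro ⟨x, hx, y, hy, rfl, rfl⟩; exact ⟨hx, hy⟩
  · rintro ⟨hx, hy⟩; exact ⟨a, hx, b, hy, rfl, rfl⟩

/-- The places where a growth step applies. -/
def candG (x : Gr) (M : List ℕ) (S : List (List ℕ)) : List (ℕ × ℕ) :=
  (pairsOf x.1).filter fun p => !(pth S p.1).isEmpty && (eB x p.1 p.2 && ((pth S p.2).isEmpty &&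
    ((pth S (mat M p.2)).isEmpty && !decide (mat M p.2 = p.2))))

/-- The places where a blossom step applies. -/
def candB (x : Gr) (M : List ℕ) (r : ℕ) (S : List (List ℕ)) : List (ℕ × ℕ) :=
  (pairsOf x.1).filter fun p => !(pth S p.1).isEmpty && (!(pth S p.2).isEmpty &&
    (eB x p.1 p.2 && !decide ((B (mat M) r (pth S) p.1).head? = (B (mat M) r (pth S) p.2).head?)))

/-- One step of the search. -/
def sstep (x : Gr) (M : List ℕ) (r : ℕ) (S : List (List ℕ)) : List (List ℕ) :=
  match candG x M S with
  | p :: _ => tab x.1 (stepG (pth S) p.1 (mat M p.2))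
  | [] => match candB x M r S with
    | p :: _ => tab x.1 (stepB (mat M) r (pth S) p.1 p.2)
    | [] => S

/-- The search. -/
def search (x : Gr) (M : List ℕ) (r : ℕ) : List (List ℕ) :=
  (List.range (x.1 + 1)).foldl (fun S _ => sstep x M r S)
    (tab x.1 fun z => if z = r then [r] else [])

/-! ### Correctness -/

theorem gd_eq {n : ℕ} {l : List ℕ} (h : ∀ a ∈ l, a < n) (hl : l.Nodup) : gd n l = l := by
  have h1 : l.filter (fun a => decide (a < n)) = l :=
    List.filter_eq_self.2 (fun a ha => by simpa using h a ha)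
  rw [gd, h1, List.take_of_length_le]
  have h2 : l ⊆ List.range n := fun a ha => List.mem_range.2 (h a ha)
  simpa using (hl.subperm h2).length_le

theorem pth_tab (n : ℕ) (f : ℕ → List ℕ) (z : ℕ) :
    pth (tab n f) z = if z < n then gd n (f z) else [] := by
  unfold pth tab
  by_cases hz : z < n
  · simp [hz]
  · rw [if_neg hz, List.getD_eq_default]
    simpa using hz

theorem pth_tab_eq {x : Gr} {m : ℕ → ℕ} {r : ℕ} {f : ℕ → List ℕ} (h : Inv (Ad x) m r f)
    (hf : ∀ z, f z ≠ [] → z < x.1) : pth (tab x.1 f) = f := by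
  funext z
  rw [pth_tab]
  split_ifs with hz
  · exact gd_eq (fun a ha => hf a (h.outer z a ha)) (h.nodup z)
  · by_contra hcon
    exact hz (hf z fun e => hcon e.symm)

theorem iterate_stable {α : Type*} (f : α → α) (I : α → Prop) (c : α → ℕ) (n : ℕ)
    (h1 : ∀ s, I s → I (f s)) (h2 : ∀ s, I s → f s = s ∨ c s < c (f s)) (h3 : ∀ s, I s → c s ≤ n)
    {s : α} (hs : I s) : I (f^[n + 1] s) ∧ f (f^[n + 1] s) = f^[n + 1] s := by
  have hI : ∀ k, I (f^[k] s) := by
    intro k
    induction k with
    | zero => exact hs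
    | succ k ih => rw [Function.iterate_succ_apply']; exact h1 _ ih
  have key : ∀ k, f (f^[k] s) = f^[k] s ∨ k ≤ c (f^[k] s) := by
    intro k
    induction k with
    | zero => exact Or.inr (Nat.zero_le _)
    | succ k ih =>
      rw [Function.iterate_succ_apply']
      rcases ih with ih | ih
      · left; rw [ih]; exact ih
      · rcases h2 _ (hI k) with h | h
        · left; rw [h]; exact h
        · right; omega
  refine ⟨hI _, (key (n + 1)).resolve_right fun h => ?_⟩
  have := h3 _ (hI (n + 1))
  omega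

theorem foldl_const' {β γ : Type*} (g : γ → γ) (l : List β) : ∀ s : γ,
    l.foldl (fun s _ => g s) s = g^[l.length] s := by
  induction l with
  | nil => intro s; rfl
  | cons b l ih =>
    intro s
    rw [List.foldl_cons, ih, List.length_cons, Function.iterate_succ_apply]

/-- Number of outer vertices. -/
def cnt (n : ℕ) (P : ℕ → List ℕ) : ℕ := ((Finset.range n).filter fun z => P z ≠ []).card

theorem cnt_le (n : ℕ) (P : ℕ → List ℕ) : cnt n P ≤ n := by
  refine (Finset.card_filter_le _ _).trans ?_
  simp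

theorem cnt_lt {n : ℕ} {P P' : ℕ → List ℕ} (h : ∀ z, P z ≠ [] → P' z ≠ []) {z : ℕ} (hz : z < n)
    (h1 : P z = []) (h2 : P' z ≠ []) : cnt n P < cnt n P' := by
  refine Finset.card_lt_card ?_
  rw [Finset.ssubset_iff_of_subset]
  · exact ⟨z, by simp [hz, h2], by simp [h1]⟩
  · intro a ha
    rw [Finset.mem_filter] at ha ⊢
    exact ⟨ha.1, h a ha.2⟩

/-- The invariants of the search on the level of lists. -/
def SInv (x : Gr) (M : List ℕ) (r : ℕ) (S : List (List ℕ)) : Prop :=
  Inv (Ad x) (mat M) r (pth S) ∧ ∀ z, pth S z ≠ [] → z < x.1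

theorem IsMat.lt {x : Gr} {m : ℕ → ℕ} (h : IsMat (Ad x) m) {v : ℕ} (hv : v < x.1) : m v < x.1 := by
  by_cases e : m v = v
  · rw [e]; exact hv
  · exact (ad_iff.1 (h.adj v e)).2.1

/-- If the bases of two outer vertices agree as sets then their first elements agree. -/
theorem head_eq {V : Type*} [DecidableEq V] {adj : V → V → Prop} {m : V → V} {r : V}
    {P : V → List V} (h : Inv adj m r P) {x y : V} (h1 : ∀ u ∈ B m r P x, u ∈ B m r P y)
    (h2 : ∀ u ∈ B m r P y, u ∈ B m r P x) : (B m r P x).head? = (B m r P y).head? := by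
  have h3 := h.B_common x y
  rw [List.filter_eq_self.2 (fun u hu => by simpa using h1 u hu),
    List.filter_eq_self.2 (fun u hu => by simpa using h2 u hu)] at h3
  rw [h3]

theorem sstep_spec {x : Gr} {M : List ℕ} (hM : IsMat (Ad x) (mat M)) {r : ℕ}
    (hr : mat M r = r) {S : List (List ℕ)} (hS : SInv x M r S) :
    SInv x M r (sstep x M r S) ∧ ((candG x M S = [] ∧ candB x M r S = [] ∧ sstep x M r S = S) ∨
      cnt x.1 (pth S) < cnt x.1 (pth (sstep x M r S))) := by
  obtain ⟨hI, hlt⟩ := hS
  unfold sstep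
  cases eG : candG x M S with
  | cons p l =>
    have hp : p ∈ candG x M S := by rw [eG]; simp
    simp only [candG, List.mem_filter, Bool.and_eq_true, Bool.not_eq_true', List.isEmpty_eq_false_iff,
      List.isEmpty_iff, decide_eq_false_iff_not, mem_pairsOf] at hp
    obtain ⟨⟨hp1, hp2⟩, h1, h2, h3, h4, h5⟩ := hp
    have hnew := hI.stepG hM.invol hr (fun _ _ h => h.symm) h1 h2 h3 h4 h5
    have hlt' : ∀ z, stepG (pth S) p.1 (mat M p.2) z ≠ [] → z < x.1 := by
      intro z hz
      unfold stepG at hz
      split_ifs at hz with e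
      · rw [e]; exact hM.lt hp2
      · exact hlt z hz
    have heq := pth_tab_eq hnew hlt'
    simp only
    refine ⟨⟨by rw [heq]; exact hnew, by rw [heq]; exact hlt'⟩, Or.inr ?_⟩
    rw [heq]
    refine cnt_lt (z := mat M p.2) ?_ (hM.lt hp2) h4 ?_
    · intro z hz
      unfold stepG
      split_ifs
      · simp
      · exact hz
    · unfold stepG
      rw [if_pos rfl]
      simp
  | nil =>
    cases eB' : candB x M r S with
    | cons p l =>
      have hp : p ∈ candB x M r S := by rw [eB']; simp
      simp only [candB, List.mem_filter, Bool.and_eq_true, Bool.not_eq_true',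
        List.isEmpty_eq_false_iff, decide_eq_false_iff_not, mem_pairsOf] at hp
      obtain ⟨⟨hp1, hp2⟩, h1, h2, h3, h4⟩ := hp
      have hnew := hI.stepB hM.invol (fun _ _ h => h.symm) h1 h2 h3
      have hlt' : ∀ z, stepB (mat M) r (pth S) p.1 p.2 z ≠ [] → z < x.1 := by
        intro z hz
        rw [Ne, hI.stepB_nil hM.invol h1 h2, not_and_or, not_not] at hz
        rcases hz with hz | hz | hz
        · exact hlt z hz
        · have := hM.lt (hlt _ (hI.outer _ _ (mem_B.1 hz.1).1))
          rwa [hM.invol] at this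
        · have := hM.lt (hlt _ (hI.outer _ _ (mem_B.1 hz.1).1))
          rwa [hM.invol] at this
      have heq := pth_tab_eq hnew hlt'
      simp only
      refine ⟨⟨by rw [heq]; exact hnew, by rw [heq]; exact hlt'⟩, Or.inr ?_⟩
      rw [heq]
      have hD : ∃ b, InD (mat M) r (pth S) p.1 p.2 b := by
        by_contra hcon
        push Not at hcon
        refine h4 (head_eq hI (fun u hu => ?_) (fun u hu => ?_))
        · by_contra h5
          exact hcon u (Or.inl ⟨hu, h5⟩)
        · by_contra h5
          exact hcon u (Or.inr ⟨hu, h5⟩)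
      obtain ⟨b, hb⟩ := hD
      have hbr : b ≠ r := fun e => hI.not_inD_root h1 h2 (e ▸ hb)
      have hbP : pth S b ≠ [] ∧ pth S (mat M b) = [] := by
        rcases hb with hb | hb
        · exact ⟨hI.outer _ _ (mem_B.1 hb.1).1, (mem_B.1 hb.1).2.resolve_left hbr⟩
        · exact ⟨hI.outer _ _ (mem_B.1 hb.1).1, (mem_B.1 hb.1).2.resolve_left hbr⟩
      refine cnt_lt (z := mat M b) ?_ (hM.lt (hlt b hbP.1)) hbP.2 ?_
      · intro z hz
        rwa [stepB_old hz]
      · rw [Ne, hI.stepB_nil hM.invol h1 h2, not_and_or, not_not, hM.invol]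
        exact Or.inr hb
    | nil => exact ⟨⟨hI, hlt⟩, Or.inl ⟨rfl, rfl, rfl⟩⟩

theorem init_inv {x : Gr} {M : List ℕ} {r : ℕ} (hr : r < x.1) (hmr : mat M r = r) :
    SInv x M r (tab x.1 fun z => if z = r then [r] else []) := by
  set f : ℕ → List ℕ := fun z => if z = r then [r] else [] with hf
  have hfr : f r = [r] := if_pos rfl
  have hf' : ∀ z, z ≠ r → f z = [] := fun z hz => if_neg hz
  have hne : ∀ z, f z ≠ [] → z = r := fun z hz => by
    by_contra h
    exact hz (hf' z h)
  have hbs : bs (mat M) r f r = true := bs_iff.2 (Or.inl rfl)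
  have hI : Inv (Ad x) (mat M) r f := by
    refine ⟨hfr, ?_, ?_, ?_, ?_, ?_, ?_, ?_, ?_⟩
    · intro z hz; rw [hne z hz, hfr]; rfl
    · intro z hz; rw [hne z hz, hfr]; rfl
    · intro z
      by_cases hz : z = r
      · rw [hz, hfr]; exact List.IsChain.singleton _
      · rw [hf' z hz]; exact List.IsChain.nil
    · intro z a ha
      have hz := hne z (List.ne_nil_of_mem ha)
      rw [hz, hfr, List.mem_singleton] at ha
      rw [ha, hfr]; simp
    · intro z
      by_cases hz : z = r
      · rw [hz, hfr]; simp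
      · rw [hf' z hz]; simp
    · intro z a ha b hb hbr
      have hz := hne z (List.ne_nil_of_mem ha)
      rw [hz, hfr, List.mem_singleton] at hb
      exact absurd hb hbr
    · intro z l₁ a l₂ e
      have hz := hne z (by rw [e]; simp)
      rw [hz, hfr] at e
      cases l₁ with
      | nil =>
        rw [List.nil_append, List.cons.injEq] at e
        obtain ⟨rfl, rfl⟩ := e
        rw [B, hfr]
      | cons c k =>
        rw [List.cons_append, List.cons.injEq] at e
        exact absurd e.2 (by simp)
    · intro a ha har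
      exact absurd (hne a ha) har
  have heq := pth_tab_eq hI (fun z hz => by rw [hne z hz]; exact hr)
  refine ⟨by rw [heq]; exact hI, ?_⟩
  rw [heq]
  intro z hz
  rw [hne z hz]
  exact hr

theorem search_spec {x : Gr} {M : List ℕ} (hM : IsMat (Ad x) (mat M)) {r : ℕ} (hr : r < x.1)
    (hmr : mat M r = r) : SInv x M r (search x M r) ∧ candG x M (search x M r) = [] ∧
      candB x M r (search x M r) = [] := by
  have h := iterate_stable (sstep x M r) (SInv x M r) (fun S => cnt x.1 (pth S)) x.1
    (fun S hS => (sstep_spec hM hmr hS).1)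
    (fun S hS => (sstep_spec hM hmr hS).2.imp (fun h => h.2.2) id) (fun S _ => cnt_le _ _)
    (init_inv (M := M) hr hmr)
  have e : search x M r = (sstep x M r)^[x.1 + 1] (tab x.1 fun z => if z = r then [r] else []) := by
    unfold search
    rw [foldl_const', List.length_range]
  rw [← e] at h
  refine ⟨h.1, ?_⟩
  rcases (sstep_spec hM hmr h.1).2 with h1 | h1
  · exact ⟨h1.1, h1.2.1⟩
  · rw [h.2] at h1
    exact absurd h1 (lt_irrefl _)

end Pool.Agent.Work.PolyTime.Blossom
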