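import Pool.Agent.Work.PolyTime.Blossom.Algo

/-!
The algorithm: matchings that cover a set of required vertices in a general graph. Main loop.
-/

set_option autoImplicit false

namespace Pool.Agent.Work.PolyTime.Blossom

/-- The table of a matching. -/
def mtab (n : ℕ) (f : ℕ → ℕ) : List ℕ := (List.range n).map fun v => if f v < n then f v else v

/-- Outer vertices that are not required. -/
def cand1 (x : Gr) (Q : List ℕ) (S : List (List ℕ)) : List ℕ :=
  (List.range x.1).filter fun v => !(pth S v).isEmpty && !decide (v ∈ Q)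

/-- Edges from outer vertices to exposed vertices other than the root. -/
def cand2 (x : Gr) (M : List ℕ) (r : ℕ) (S : List (List ℕ)) : List (ℕ × ℕ) :=
  (pairsOf x.1).filter fun p => !(pth S p.1).isEmpty && (eB x p.1 p.2 &&
    (decide (mat M p.2 = p.2) && !decide (p.2 = r)))

/-- The new matching after a search. -/
def newM (x : Gr) (Q M : List ℕ) (r : ℕ) (S : List (List ℕ)) : List ℕ :=
  match cand1 x Q S with
  | v :: _ => mtab x.1 (flip (mat M) (pth S v))
  | [] => match cand2 x M r S with
    | p :: _ => mtab x.1 (join (flip (mat M) (pth S p.1)) p.1 p.2)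
    | [] => M

/-- Exposed required vertices. -/
def expd (x : Gr) (Q M : List ℕ) : List ℕ :=
  (List.range x.1).filter fun v => decide (v ∈ Q) && decide (mat M v = v)

/-- One round. -/
def round (x : Gr) (Q M : List ℕ) : List ℕ :=
  match expd x Q M with
  | [] => M
  | r :: _ => newM x Q M r (search x M r)

/-- The matching found by the algorithm. -/
def cover (x : Gr) (Q : List ℕ) : List ℕ :=
  (List.range x.1).foldl (fun M _ => round x Q M) (List.range x.1)

/-- The algorithm: is there a matching that covers the required vertices? -/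
def coverB (x : Gr) (Q : List ℕ) : Bool := (expd x Q (cover x Q)).isEmpty

/-! ### Correctness -/

theorem mat_mtab {x : Gr} {f : ℕ → ℕ} (h : IsMat (Ad x) f) : mat (mtab x.1 f) = f := by
  funext v
  unfold mat mtab
  by_cases hv : v < x.1
  · simp [hv, h.lt hv]
  · rw [List.getD_eq_default _ _ (by simpa using hv)]
    by_contra hcon
    exact hv (ad_iff.1 (h.adj v fun e => hcon e.symm)).1

/-- Number of exposed required vertices. -/
def ecnt (x : Gr) (Q : List ℕ) (m : ℕ → ℕ) : ℕ :=
  ((Finset.range x.1).filter fun v => v ∈ Q ∧ m v = v).card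

theorem ecnt_lt {x : Gr} {Q : List ℕ} {m m' : ℕ → ℕ} {r : ℕ} (hr : r < x.1) (hrQ : r ∈ Q)
    (hmr : m r = r) (hr' : m' r ≠ r) (h : ∀ v ∈ Q, m v ≠ v → m' v ≠ v) :
    ecnt x Q m' < ecnt x Q m := by
  refine Finset.card_lt_card ?_
  rw [Finset.ssubset_iff_of_subset]
  · exact ⟨r, by simp [hr, hrQ, hmr], by simp [hr']⟩
  · intro a ha
    rw [Finset.mem_filter] at ha ⊢
    refine ⟨ha.1, ha.2.1, ?_⟩
    by_contra h1
    exact h a ha.2.1 h1 ha.2.2

theorem newM_spec {x : Gr} {Q M : List ℕ} (hM : IsMat (Ad x) (mat M)) {r : ℕ} (hr : r < x.1)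
    (hrQ : r ∈ Q) (hmr : mat M r = r) :
    IsMat (Ad x) (mat (newM x Q M r (search x M r))) ∧
      ((∃ m', IsMat (Ad x) m' ∧ ∀ v ∈ Q, v < x.1 → m' v ≠ v) →
        ecnt x Q (mat (newM x Q M r (search x M r))) < ecnt x Q (mat M)) := by
  obtain ⟨⟨hI, hlt⟩, hG, hB⟩ := search_spec hM hr hmr
  set S := search x M r with hS
  have hsymm : ∀ u v, Ad x u v → Ad x v u := fun _ _ h => h.symm
  -- the change along the path of an outer vertex
  have hflip : ∀ v, pth S v ≠ [] → IsMat (Ad x) (flip (mat M) (pth S v)) ∧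
      flip (mat M) (pth S v) v = v ∧
      (∀ w, w ∉ pth S v → (∀ a ∈ pth S v, w ≠ mat M a) → flip (mat M) (pth S v) w = mat M w) ∧
      (∀ w, w ≠ v → (mat M w ≠ w ∨ w = r) → flip (mat M) (pth S v) w ≠ w) := by
    intro v hv
    obtain ⟨h1, h2, h3, -, h5⟩ := flip_spec hM hmr hsymm (pth S v) v (hI.head v hv) (hI.last v hv)
      (hI.chain v) (hI.nodup v) (hI.reg v)
    exact ⟨h1, h2, h3, h5⟩
  unfold newM
  cases e1 : cand1 x Q S with
  | cons v l =>
    have hv : v ∈ cand1 x Q S := by rw [e1]; simp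
    simp only [cand1, List.mem_filter, List.mem_range, Bool.and_eq_true, Bool.not_eq_true',
      List.isEmpty_eq_false_iff, decide_eq_false_iff_not] at hv
    obtain ⟨hv1, hv2, hv3⟩ := hv
    obtain ⟨h1, h2, h3, h5⟩ := hflip v hv2
    simp only
    rw [mat_mtab h1]
    refine ⟨h1, fun _ => ecnt_lt hr hrQ hmr ?_ ?_⟩
    · exact h5 r (fun e => hv3 (e ▸ hrQ)) (Or.inr rfl)
    · intro w hwQ hw
      exact h5 w (fun e => hv3 (e ▸ hwQ)) (Or.inl hw)
  | nil =>
    cases e2 : cand2 x M r S with
    | cons p l =>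
      have hp : p ∈ cand2 x M r S := by rw [e2]; simp
      simp only [cand2, List.mem_filter, Bool.and_eq_true, Bool.not_eq_true',
        List.isEmpty_eq_false_iff, decide_eq_false_iff_not, decide_eq_true_eq, mem_pairsOf] at hp
      obtain ⟨⟨hp1, hp2⟩, hp3, hp4, hp5, hp6⟩ := hp
      obtain ⟨h1, h2, h3, h5⟩ := hflip p.1 hp3
      have hs1 : p.2 ∉ pth S p.1 := fun hs =>
        hI.reg p.1 p.2 hs p.2 hs hp6 hp5.symm
      have hs2 : ∀ a ∈ pth S p.1, p.2 ≠ mat M a := by
        intro a ha e
        have : a = p.2 := by rw [← hM.invol a, ← e, hp5]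
        exact hs1 (this ▸ ha)
      have hfs : flip (mat M) (pth S p.1) p.2 = p.2 := by rw [h3 _ hs1 hs2, hp5]
      have hne : p.1 ≠ p.2 := (ad_iff.1 hp4).2.2.1
      obtain ⟨h6, h7⟩ := join_spec h1 hsymm h2 hfs hp4 hne
      simp only
      rw [mat_mtab h6]
      refine ⟨h6, fun _ => ecnt_lt hr hrQ hmr ?_ ?_⟩
      · refine h7 r ?_
        by_cases e : r = p.1
        · exact Or.inr (Or.inl e)
        · exact Or.inl (h5 r e (Or.inr rfl))
      · intro w _ hw
        refine h7 w ?_
        by_cases e : w = p.1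
        · exact Or.inr (Or.inl e)
        · exact Or.inl (h5 w e (Or.inl hw))
    | nil =>
      refine ⟨hM, ?_⟩
      rintro ⟨m', hm', hcov⟩
      exfalso
      have hPn : ∀ y, y < x.1 ∨ pth S y = [] := by
        intro y
        by_contra hcon
        rw [not_or] at hcon
        exact hcon.1 (hlt y hcon.2)
      refine hI.no_cover ((Set.finite_lt_nat x.1).subset fun y hy => hlt y hy) hM.invol hmr ?_ ?_ ?_
        m' hm'.invol hm'.adj ?_
      · intro a b ha hab hb hmb
        by_contra hcon
        have : (a, b) ∈ candG x M S := by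
          simp only [candG, List.mem_filter, Bool.and_eq_true, Bool.not_eq_true',
            List.isEmpty_eq_false_iff, List.isEmpty_iff, decide_eq_false_iff_not, mem_pairsOf]
          exact ⟨⟨(ad_iff.1 hab).1, (ad_iff.1 hab).2.1⟩, ha, hab, hb, hmb, hcon⟩
        rw [hG] at this
        simp at this
      · intro a b ha hb hab
        by_contra hcon
        have : (a, b) ∈ candB x M r S := by
          simp only [candB, List.mem_filter, Bool.and_eq_true, Bool.not_eq_true',
            List.isEmpty_eq_false_iff, decide_eq_false_iff_not, mem_pairsOf]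
          exact ⟨⟨(ad_iff.1 hab).1, (ad_iff.1 hab).2.1⟩, ha, hb, hab, hcon⟩
        rw [hB] at this
        simp at this
      · intro a b ha hab hb
        by_contra hcon
        have : (a, b) ∈ cand2 x M r S := by
          simp only [cand2, List.mem_filter, Bool.and_eq_true, Bool.not_eq_true',
            List.isEmpty_eq_false_iff, decide_eq_false_iff_not, decide_eq_true_eq, mem_pairsOf]
          exact ⟨⟨(ad_iff.1 hab).1, (ad_iff.1 hab).2.1⟩, ha, hab, hb, hcon⟩
        rw [e2] at this
        simp at this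
      · intro a ha
        have haQ : a ∈ Q := by
          by_contra hcon
          have : a ∈ cand1 x Q S := by
            simp only [cand1, List.mem_filter, List.mem_range, Bool.and_eq_true, Bool.not_eq_true',
              List.isEmpty_eq_false_iff, decide_eq_false_iff_not]
            exact ⟨hlt a ha, ha, hcon⟩
          rw [e1] at this
          simp at this
        exact hcov a haQ (hlt a ha)

theorem mem_expd {x : Gr} {Q M : List ℕ} {v : ℕ} :
    v ∈ expd x Q M ↔ v < x.1 ∧ v ∈ Q ∧ mat M v = v := by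
  simp [expd]

theorem ecnt_eq_zero {x : Gr} {Q M : List ℕ} : ecnt x Q (mat M) = 0 ↔ expd x Q M = [] := by
  rw [ecnt, Finset.card_eq_zero, Finset.filter_eq_empty_iff, List.eq_nil_iff_forall_not_mem]
  constructor
  · intro h v hv
    rw [mem_expd] at hv
    exact h (Finset.mem_range.2 hv.1) hv.2
  · intro h v hv hv'
    exact h v (mem_expd.2 ⟨Finset.mem_range.1 hv, hv'⟩)

theorem round_spec {x : Gr} {Q M : List ℕ} (hM : IsMat (Ad x) (mat M)) :
    IsMat (Ad x) (mat (round x Q M)) ∧
      ((∃ m', IsMat (Ad x) m' ∧ ∀ v ∈ Q, v < x.1 → m' v ≠ v) →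
        ecnt x Q (mat (round x Q M)) ≤ ecnt x Q (mat M) - 1) := by
  unfold round
  cases e : expd x Q M with
  | nil =>
    refine ⟨hM, fun _ => ?_⟩
    rw [ecnt_eq_zero.2 e]
  | cons r l =>
    have hr : r ∈ expd x Q M := by rw [e]; simp
    rw [mem_expd] at hr
    obtain ⟨h1, h2⟩ := newM_spec hM hr.1 hr.2.1 hr.2.2
    refine ⟨h1, fun h => ?_⟩
    have := h2 h
    simp only
    omega

theorem mat_range (n : ℕ) : mat (List.range n) = id := by
  funext v
  unfold mat
  by_cases hv : v < n
  · simp [hv]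
  · rw [List.getD_eq_default _ _ (by simpa using hv)]
    rfl

theorem cover_spec (x : Gr) (Q : List ℕ) : IsMat (Ad x) (mat (cover x Q)) ∧
      ((∃ m', IsMat (Ad x) m' ∧ ∀ v ∈ Q, v < x.1 → m' v ≠ v) → ecnt x Q (mat (cover x Q)) = 0) := by
  have key : ∀ k, IsMat (Ad x) (mat ((round x Q)^[k] (List.range x.1))) ∧
      ((∃ m', IsMat (Ad x) m' ∧ ∀ v ∈ Q, v < x.1 → m' v ≠ v) →
        ecnt x Q (mat ((round x Q)^[k] (List.range x.1))) ≤ x.1 - k) := by
    intro k
    induction k with
    | zero =>
      rw [Function.iterate_zero, id, mat_range]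
      refine ⟨⟨fun v => rfl, fun v hv => absurd rfl hv⟩, fun _ => ?_⟩
      refine (Finset.card_filter_le _ _).trans ?_
      simp
    | succ k ih =>
      rw [Function.iterate_succ_apply']
      obtain ⟨h1, h2⟩ := round_spec (Q := Q) ih.1
      refine ⟨h1, fun h => ?_⟩
      have := h2 h
      have := ih.2 h
      omega
  have e : cover x Q = (round x Q)^[x.1] (List.range x.1) := by
    unfold cover
    rw [foldl_const', List.length_range]
  rw [e]
  refine ⟨(key x.1).1, fun h => ?_⟩
  have := (key x.1).2 h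
  omega

/-- The algorithm is correct. -/
theorem coverB_iff (x : Gr) (Q : List ℕ) : coverB x Q = true ↔
    ∃ m : ℕ → ℕ, IsMat (Ad x) m ∧ ∀ v ∈ Q, v < x.1 → m v ≠ v := by
  obtain ⟨h1, h2⟩ := cover_spec x Q
  unfold coverB
  rw [List.isEmpty_iff, ← ecnt_eq_zero]
  constructor
  · intro h
    refine ⟨_, h1, fun v hv hlt e => ?_⟩
    rw [ecnt_eq_zero, List.eq_nil_iff_forall_not_mem] at h
    exact h v (mem_expd.2 ⟨hlt, hv, e⟩)
  · exact h2

end Pool.Agent.Work.PolyTime.Blossom
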