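import Pool.Agent.Work.PolyTime.Blossom.Cover

/-!
Choice of one element in each class, with binary relations between linked elements, as a matching
problem.
-/

set_option autoImplicit false

namespace Pool.Agent.Work.PolyTime.Blossom

/-! ### The gadgets -/

/-- The first element can be chosen. -/
def fE (ρ : Bool → Bool → Bool) : Bool := ρ true false || ρ true true

/-- The first gadget vertex is required. -/
def fR (ρ : Bool → Bool → Bool) : Bool :=
  (!ρ false false && !ρ false true) || ((ρ false false && (ρ true true && !ρ false true)) ||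
    (!ρ false false && (ρ false true && ρ true false)))

/-- The two gadget vertices are adjacent. -/
def fK (ρ : Bool → Bool → Bool) : Bool :=
  ρ false false && (ρ true true && !(ρ false true && ρ true false))

/-- The two gadget vertices have a common neighbour. -/
def fY (ρ : Bool → Bool → Bool) : Bool :=
  ρ false true && (ρ true false && !(ρ false false && ρ true true))

/-- The common neighbour is required. -/
def fQ (ρ : Bool → Bool → Bool) : Bool := ρ false true && (ρ true false && !ρ true true)

/-- Transposition. -/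
def tr (ρ : Bool → Bool → Bool) (a b : Bool) : Bool := ρ b a

theorem fK_tr (ρ : Bool → Bool → Bool) : fK (tr ρ) = fK ρ := by
  unfold fK tr
  cases ρ false false <;> cases ρ false true <;> cases ρ true false <;> cases ρ true true <;> rfl

theorem fY_tr (ρ : Bool → Bool → Bool) : fY (tr ρ) = fY ρ := by
  unfold fY tr
  cases ρ false false <;> cases ρ false true <;> cases ρ true false <;> cases ρ true true <;> rfl

theorem fQ_tr (ρ : Bool → Bool → Bool) : fQ (tr ρ) = fQ ρ := by
  unfold fQ tr
  cases ρ false false <;> cases ρ false true <;> cases ρ true false <;> cases ρ true true <;> rfl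

theorem fY_of_fQ {ρ : Bool → Bool → Bool} (h : fQ ρ = true) : fY ρ = true := by
  revert h
  unfold fQ fY
  cases ρ false false <;> cases ρ false true <;> cases ρ true false <;> cases ρ true true <;> decide

theorem not_fK_of_fY {ρ : Bool → Bool → Bool} (h : fY ρ = true) : fK ρ = false := by
  revert h
  unfold fK fY
  cases ρ false false <;> cases ρ false true <;> cases ρ true false <;> cases ρ true true <;> decide

theorem gadget_table (x y z t a b e c d : Bool) (h1 : a = true → (z || t) = true)
    (h2 : b = true → (y || t) = true) (h3 : e = true → (x && (t && !(y && z))) = true)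
    (h4 : c = true → (y && (z && !(x && t))) = true) (h5 : d = true → (y && (z && !(x && t))) = true)
    (h6 : e = true → a = false ∧ b = false) (h7 : c = true → a = false)
    (h8 : d = true → b = false) (h9 : c = true → d = false)
    (h10 : ((!x && !y) || ((x && (t && !y)) || (!x && (y && z)))) = true →
      a = true ∨ e = true ∨ c = true)
    (h11 : ((!x && !z) || ((x && (t && !z)) || (!x && (z && y)))) = true →
      b = true ∨ e = true ∨ d = true)
    (h12 : (y && (z && !t)) = true → c = true ∨ d = true) :
    (bif a then (bif b then t else z) else (bif b then y else x)) = true := by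
  cases a <;> cases b <;> cases e <;> cases c <;> cases d <;> cases x <;> cases y <;>
    cases z <;> cases t <;> first | rfl | (exfalso; simp at h1 h2 h3 h4 h5 h6 h7 h8 h9 h10 h11 h12)

/-- From a matching of the gadget to the relation. -/
theorem gadget_sound (ρ : Bool → Bool → Bool) (a b e c d : Bool) (h1 : a = true → fE ρ = true)
    (h2 : b = true → fE (tr ρ) = true) (h3 : e = true → fK ρ = true)
    (h4 : c = true → fY ρ = true) (h5 : d = true → fY ρ = true)
    (h6 : e = true → a = false ∧ b = false) (h7 : c = true → a = false)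
    (h8 : d = true → b = false) (h9 : c = true → d = false)
    (h10 : fR ρ = true → a = true ∨ e = true ∨ c = true)
    (h11 : fR (tr ρ) = true → b = true ∨ e = true ∨ d = true)
    (h12 : fQ ρ = true → c = true ∨ d = true) : ρ a b = true := by
  have h := gadget_table (ρ false false) (ρ false true) (ρ true false) (ρ true true) a b e c d
    h1 h2 h3 h4 h5 h6 h7 h8 h9 h10 h11 h12
  cases a <;> cases b <;> exact h

/-- From the relation to a matching of the gadget. -/
theorem gadget_complete1 {ρ : Bool → Bool → Bool} {b : Bool} (h : fR ρ = true)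
    (h' : ρ false b = true) : (fK ρ = true ∧ b = false) ∨ (fY ρ = true ∧ b = true) := by
  revert h h'
  unfold fR fK fY
  cases b <;> generalize ρ false false = x <;> generalize ρ false true = y <;>
    generalize ρ true false = z <;> generalize ρ true true = t <;>
    revert x y z t <;> decide

theorem gadget_complete2 {ρ : Bool → Bool → Bool} {b : Bool} (h : ρ true b = true) :
    fE ρ = true := by
  revert h
  unfold fE
  cases b <;> cases ρ true false <;> cases ρ true true <;> decide

theorem gadget_complete3 {ρ : Bool → Bool → Bool} (h : fQ ρ = true) : ρ true true = false := by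
  revert h
  unfold fQ
  cases ρ false true <;> cases ρ true false <;> cases ρ true true <;> decide

/-! ### The graph -/

/-- The relation between `c` and its linked element. -/
def rel (lk : ℕ → ℕ) (R : ℕ → Bool → Bool → Bool) (c : ℕ) (a b : Bool) : Bool :=
  bif decide (lk c = c) then R c a a else R c a b && R (lk c) b a

/-- Edges of the matching problem. -/
def fEdges (n : ℕ) (C : List ℕ) (nd lk : ℕ → ℕ) (R : ℕ → Bool → Bool → Bool) : List (ℕ × ℕ) :=
  ((C.filter fun c => fE (rel lk R c)).map fun c => (nd c, n + c)) ++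
  (((C.filter fun c => fK (rel lk R c)).map fun c => (n + c, n + lk c)) ++
  ((C.filter fun c => fY (rel lk R c)).map fun c => (n + c, 2 * n + min c (lk c))))

/-- Required vertices of the matching problem. -/
def fReq (n : ℕ) (C : List ℕ) (nd lk : ℕ → ℕ) (R : ℕ → Bool → Bool → Bool) : List ℕ :=
  (C.map fun c => nd c) ++ (((C.filter fun c => fR (rel lk R c)).map fun c => n + c) ++
    ((C.filter fun c => fQ (rel lk R c)).map fun c => 2 * n + min c (lk c)))

/-- The decision algorithm: is there a set of elements of `C` with exactly one element in each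
class (the class of `c` is given by `nd c`), such that the relation `R c` holds for the memberships
of `c` and of the linked element `lk c`, for all `c`. -/
def frameB (n : ℕ) (C : List ℕ) (nd lk : ℕ → ℕ) (R : ℕ → Bool → Bool → Bool) : Bool :=
  coverB (3 * n, fEdges n C nd lk R) (fReq n C nd lk R)

section

variable {n : ℕ} {C : List ℕ} {nd lk : ℕ → ℕ} {R : ℕ → Bool → Bool → Bool}

theorem mem_fEdges {u v : ℕ} : (u, v) ∈ fEdges n C nd lk R ↔
    (∃ c ∈ C, fE (rel lk R c) = true ∧ u = nd c ∧ v = n + c) ∨
    (∃ c ∈ C, fK (rel lk R c) = true ∧ u = n + c ∧ v = n + lk c) ∨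
    (∃ c ∈ C, fY (rel lk R c) = true ∧ u = n + c ∧ v = 2 * n + min c (lk c)) := by
  simp only [fEdges, List.mem_append, List.mem_map, List.mem_filter, Prod.mk.injEq]
  constructor
  · rintro (⟨c, ⟨h1, h2⟩, rfl, rfl⟩ | ⟨c, ⟨h1, h2⟩, rfl, rfl⟩ | ⟨c, ⟨h1, h2⟩, rfl, rfl⟩)
    · exact Or.inl ⟨c, h1, h2, rfl, rfl⟩
    · exact Or.inr (Or.inl ⟨c, h1, h2, rfl, rfl⟩)
    · exact Or.inr (Or.inr ⟨c, h1, h2, rfl, rfl⟩)
  · rintro (⟨c, h1, h2, rfl, rfl⟩ | ⟨c, h1, h2, rfl, rfl⟩ | ⟨c, h1, h2, rfl, rfl⟩)
    · exact Or.inl ⟨c, ⟨h1, h2⟩, rfl, rfl⟩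
    · exact Or.inr (Or.inl ⟨c, ⟨h1, h2⟩, rfl, rfl⟩)
    · exact Or.inr (Or.inr ⟨c, ⟨h1, h2⟩, rfl, rfl⟩)

theorem rel_lk {c : ℕ} (h : lk (lk c) = c) (hne : lk c ≠ c) :
    rel lk R (lk c) = tr (rel lk R c) := by
  funext a b
  unfold tr rel
  rw [h]
  simp only [hne, Ne.symm hne, decide_false, cond_false]
  exact Bool.and_comm _ _

theorem rel_self {c : ℕ} (h : lk c = c) (a b : Bool) : rel lk R c a b = R c a a := by
  unfold rel
  simp [h]

theorem fK_self {c : ℕ} (h : lk c = c) : fK (rel lk R c) = false := by
  unfold fK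
  simp only [rel_self h]
  cases R c false false <;> cases R c true true <;> rfl

theorem fY_self {c : ℕ} (h : lk c = c) : fY (rel lk R c) = false := by
  unfold fY
  simp only [rel_self h]
  cases R c false false <;> cases R c true true <;> rfl

/-- A matching from a relation. -/
theorem exists_mat {x : Gr} (r : ℕ → ℕ → Prop) (hsymm : ∀ u v, r u v → r v u)
    (huniq : ∀ u v v', r u v → r u v' → v = v') (hadj : ∀ u v, r u v → Ad x u v) :
    ∃ m : ℕ → ℕ, IsMat (Ad x) m ∧ ∀ u v, r u v → m u = v := by
  classical
  have key : ∀ u v, r u v → (if h : ∃ v, r u v then h.choose else u) = v := by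
    intro u v h
    have h' : ∃ v, r u v := ⟨v, h⟩
    rw [dif_pos h']
    exact huniq u _ _ h'.choose_spec h
  refine ⟨fun u => if h : ∃ v, r u v then h.choose else u, ⟨?_, ?_⟩, key⟩
  · intro u
    by_cases h : ∃ v, r u v
    · obtain ⟨v, hv⟩ := h
      simp only [key u v hv]
      exact key v u (hsymm _ _ hv)
    · have e : (if h : ∃ v, r u v then h.choose else u) = u := dif_neg h
      simp only [e]
  · intro u hu
    by_cases h : ∃ v, r u v
    · obtain ⟨v, hv⟩ := h
      simp only [key u v hv]
      exact hadj u v hv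
    · exact absurd (dif_neg h) hu

/-- Well-formed data. -/
structure Wf (n : ℕ) (C : List ℕ) (nd lk : ℕ → ℕ) : Prop where
  lt : ∀ c ∈ C, c < n
  nd : ∀ c ∈ C, nd c < n
  mem : ∀ c ∈ C, lk c ∈ C
  lk : ∀ c ∈ C, lk (lk c) = c

/-- A solution of the problem. -/
structure IsSol (C : List ℕ) (nd lk : ℕ → ℕ) (R : ℕ → Bool → Bool → Bool) (w : ℕ → Bool) :
    Prop where
  ex : ∀ c ∈ C, ∃ d ∈ C, nd d = nd c ∧ w d = true
  uniq : ∀ c ∈ C, ∀ d ∈ C, nd d = nd c → w c = true → w d = true → c = d
  rel : ∀ c ∈ C, R c (w c) (w (lk c)) = true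

theorem frame_sound (hw : Wf n C nd lk) {m : ℕ → ℕ}
    (hm : IsMat (Ad (3 * n, fEdges n C nd lk R)) m)
    (hcov : ∀ v ∈ fReq n C nd lk R, v < 3 * n → m v ≠ v) :
    IsSol C nd lk R (fun c => decide (m (n + c) = nd c)) := by
  have hinj : ∀ u v, m u = m v → u = v := fun u v h => by rw [← hm.invol u, h, hm.invol]
  -- neighbours of the vertices
  have hnode : ∀ u v, u < n → Ad (3 * n, fEdges n C nd lk R) u v →
      ∃ c ∈ C, fE (Blossom.rel lk R c) = true ∧ u = nd c ∧ v = n + c := by
    intro u v hu h
    rw [ad_iff] at h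
    rcases h.2.2.2 with h1 | h1
    · rw [mem_fEdges] at h1
      rcases h1 with ⟨c, hc, h2, h3, h4⟩ | ⟨c, hc, h2, h3, h4⟩ | ⟨c, hc, h2, h3, h4⟩
      · exact ⟨c, hc, h2, h3, h4⟩
      · omega
      · omega
    · rw [mem_fEdges] at h1
      rcases h1 with ⟨c, hc, h2, h3, h4⟩ | ⟨c, hc, h2, h3, h4⟩ | ⟨c, hc, h2, h3, h4⟩
      · have := hw.nd c hc; omega
      · omega
      · omega
  have hp : ∀ c v, c < n → Ad (3 * n, fEdges n C nd lk R) (n + c) v → c ∈ C ∧
      ((fE (Blossom.rel lk R c) = true ∧ v = nd c) ∨
      (fK (Blossom.rel lk R c) = true ∧ v = n + lk c ∧ lk c ≠ c) ∨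
      (fY (Blossom.rel lk R c) = true ∧ v = 2 * n + min c (lk c) ∧ lk c ≠ c)) := by
    intro c v hc h
    rw [ad_iff] at h
    have hK : ∀ d, fK (Blossom.rel lk R d) = true → lk d ≠ d := fun d hd e => by
      rw [fK_self e] at hd; simp at hd
    have hY : ∀ d, fY (Blossom.rel lk R d) = true → lk d ≠ d := fun d hd e => by
      rw [fY_self e] at hd; simp at hd
    rcases h.2.2.2 with h1 | h1
    · rw [mem_fEdges] at h1
      rcases h1 with ⟨d, hd, h2, h3, h4⟩ | ⟨d, hd, h2, h3, h4⟩ | ⟨d, hd, h2, h3, h4⟩
      · have := hw.nd d hd; omega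
      · have : c = d := by omega
        subst this
        exact ⟨hd, Or.inr (Or.inl ⟨h2, h4, hK _ h2⟩)⟩
      · have : c = d := by omega
        subst this
        exact ⟨hd, Or.inr (Or.inr ⟨h2, h4, hY _ h2⟩)⟩
    · rw [mem_fEdges] at h1
      rcases h1 with ⟨d, hd, h2, h3, h4⟩ | ⟨d, hd, h2, h3, h4⟩ | ⟨d, hd, h2, h3, h4⟩
      · have : c = d := by omega
        subst this
        exact ⟨hd, Or.inl ⟨h2, h3⟩⟩
      · have hcd : c = lk d := by omega
        have hne := hK _ h2
        have e : lk c = d := by rw [hcd, hw.lk d hd]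
        refine ⟨by rw [hcd]; exact hw.mem d hd, Or.inr (Or.inl ⟨?_, by rw [e]; exact h3, ?_⟩)⟩
        · rw [hcd, rel_lk (hw.lk d hd) hne, fK_tr]; exact h2
        · rw [e, hcd]; exact hne.symm
      · have := hw.lt d hd
        have := hw.lt _ (hw.mem d hd)
        omega
  have hy : ∀ e v, Ad (3 * n, fEdges n C nd lk R) (2 * n + e) v →
      ∃ c ∈ C, fY (Blossom.rel lk R c) = true ∧ e = min c (lk c) ∧ v = n + c := by
    intro e v h
    rw [ad_iff] at h
    rcases h.2.2.2 with h1 | h1
    · rw [mem_fEdges] at h1
      rcases h1 with ⟨d, hd, h2, h3, h4⟩ | ⟨d, hd, h2, h3, h4⟩ | ⟨d, hd, h2, h3, h4⟩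
      · have := hw.nd d hd; omega
      · have := hw.lt d hd; omega
      · have := hw.lt d hd; omega
    · rw [mem_fEdges] at h1
      rcases h1 with ⟨d, hd, h2, h3, h4⟩ | ⟨d, hd, h2, h3, h4⟩ | ⟨d, hd, h2, h3, h4⟩
      · have := hw.lt d hd; omega
      · have := hw.lt _ (hw.mem d hd); omega
      · exact ⟨d, hd, h2, by omega, h3⟩
  refine ⟨?_, ?_, ?_⟩
  · intro c hc
    have h1 : m (nd c) ≠ nd c := hcov (nd c) (by
      rw [fReq, List.mem_append, List.mem_map]
      exact Or.inl ⟨c, hc, rfl⟩) (by have := hw.nd c hc; omega)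
    obtain ⟨d, hd, -, h2, h3⟩ := hnode _ _ (hw.nd c hc) (hm.adj _ h1)
    refine ⟨d, hd, h2.symm, ?_⟩
    simp only [decide_eq_true_eq]
    rw [← h3, hm.invol, h2]
  · intro c hc d hd hcd h1 h2
    simp only [decide_eq_true_eq] at h1 h2
    have := hinj (n + c) (n + d) (by rw [h1, h2, hcd])
    omega
  · intro c hc
    by_cases hself : lk c = c
    · rw [hself]
      have h1 : ∀ v, Ad (3 * n, fEdges n C nd lk R) (n + c) v →
          fE (Blossom.rel lk R c) = true ∧ v = nd c := by
        intro v hv
        rcases (hp c v (hw.lt c hc) hv).2 with h | h | h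
        · exact h
        · exact absurd hself h.2.2
        · exact absurd hself h.2.2
      by_cases h2 : m (n + c) = nd c
      · have h3 : m (n + c) ≠ n + c := by have := hw.nd c hc; omega
        have h4 := (h1 _ (hm.adj _ h3)).1
        simp only [h2, decide_true]
        unfold fE at h4
        simpa only [rel_self hself, Bool.or_self] using h4
      · simp only [h2, decide_false]
        have h3 : m (n + c) = n + c := by
          by_contra h3
          exact h2 (h1 _ (hm.adj _ h3)).2
        by_contra h4
        rw [Bool.not_eq_true] at h4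
        refine hcov (n + c) ?_ (by have := hw.lt c hc; omega) h3
        rw [fReq, List.mem_append, List.mem_append, List.mem_map, List.mem_map]
        refine Or.inr (Or.inl ⟨c, ?_, rfl⟩)
        rw [List.mem_filter]
        refine ⟨hc, ?_⟩
        unfold fR
        simp only [rel_self hself, h4]
        rfl
    · set d := lk c with hd
      have hdC : d ∈ C := hw.mem c hc
      have hdc : lk d = c := hw.lk c hc
      have hmin : min d (lk d) = min c d := by rw [hdc, min_comm]
      have hrel : Blossom.rel lk R d = tr (Blossom.rel lk R c) := rel_lk (hw.lk c hc) hself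
      have hdself : lk d ≠ d := by rw [hdc]; exact fun e => hself e.symm
      have hreq : ∀ b ∈ C, fR (Blossom.rel lk R b) = true → m (n + b) ≠ n + b := by
        intro b hb h
        refine hcov _ ?_ (by have := hw.lt b hb; omega)
        rw [fReq, List.mem_append, List.mem_append, List.mem_map, List.mem_map]
        exact Or.inr (Or.inl ⟨b, List.mem_filter.2 ⟨hb, h⟩, rfl⟩)
      have hcn := hw.lt c hc
      have hdn := hw.lt d hdC
      have hncn := hw.nd c hc
      have hndn := hw.nd d hdC
      have hgoal : Blossom.rel lk R c (decide (m (n + c) = nd c)) (decide (m (n + d) = nd d)) =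
          true := by
        refine gadget_sound _ _ _ (decide (m (n + c) = n + d)) (decide (m (n + c) = 2 * n + min c d))
          (decide (m (n + d) = 2 * n + min c d)) ?_ ?_ ?_ ?_ ?_ ?_ ?_ ?_ ?_ ?_ ?_ ?_
        · intro h
          rw [decide_eq_true_eq] at h
          have h1 := hm.adj (n + c) (by omega)
          rw [h] at h1
          rcases (hp c _ hcn h1).2 with h2 | h2 | h2
          · exact h2.1
          · omega
          · omega
        · intro h
          rw [decide_eq_true_eq] at h
          have h1 := hm.adj (n + d) (by omega)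
          rw [h] at h1
          rw [← hrel]
          rcases (hp d _ hdn h1).2 with h2 | h2 | h2
          · exact h2.1
          · omega
          · omega
        · intro h
          rw [decide_eq_true_eq] at h
          have h1 := hm.adj (n + c) (by rw [h]; intro e; exact hself (by omega))
          rw [h] at h1
          rcases (hp c _ hcn h1).2 with h2 | h2 | h2
          · omega
          · exact h2.1
          · omega
        · intro h
          rw [decide_eq_true_eq] at h
          have h1 := hm.adj (n + c) (by omega)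
          rw [h] at h1
          rcases (hp c _ hcn h1).2 with h2 | h2 | h2
          · omega
          · omega
          · exact h2.1
        · intro h
          rw [decide_eq_true_eq] at h
          have h1 := hm.adj (n + d) (by omega)
          rw [h] at h1
          rcases (hp d _ hdn h1).2 with h2 | h2 | h2
          · omega
          · omega
          · have := h2.1
            rwa [hrel, fY_tr] at this
        · intro h
          rw [decide_eq_true_eq] at h
          have h1 : m (n + d) = n + c := by rw [← h, hm.invol]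
          rw [decide_eq_false_iff_not, decide_eq_false_iff_not, h, h1]
          omega
        · intro h
          rw [decide_eq_true_eq] at h
          rw [decide_eq_false_iff_not, h]
          omega
        · intro h
          rw [decide_eq_true_eq] at h
          rw [decide_eq_false_iff_not, h]
          omega
        · intro h
          rw [decide_eq_true_eq] at h
          rw [decide_eq_false_iff_not]
          intro h1
          have := hinj (n + c) (n + d) (by rw [h, h1])
          exact hself (by omega)
        · intro h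
          have h1 := hreq c hc h
          simp only [decide_eq_true_eq]
          rcases (hp c _ hcn (hm.adj _ h1)).2 with h2 | h2 | h2
          · exact Or.inl h2.2
          · exact Or.inr (Or.inl h2.2.1)
          · exact Or.inr (Or.inr h2.2.1)
        · intro h
          rw [← hrel] at h
          have h1 := hreq d hdC h
          simp only [decide_eq_true_eq]
          rcases (hp d _ hdn (hm.adj _ h1)).2 with h2 | h2 | h2
          · exact Or.inl h2.2
          · refine Or.inr (Or.inl ?_)
            have h3 : n + d = m (n + c) := by rw [← hm.invol (n + d), h2.2.1, hdc]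
            exact h3.symm
          · refine Or.inr (Or.inr ?_)
            rw [h2.2.1, hmin]
        · intro h
          have h1 : m (2 * n + min c d) ≠ 2 * n + min c d := by
            refine hcov _ ?_ (by omega)
            rw [fReq, List.mem_append, List.mem_append, List.mem_map, List.mem_map, List.mem_map]
            exact Or.inr (Or.inr ⟨c, List.mem_filter.2 ⟨hc, h⟩, rfl⟩)
          obtain ⟨b, hb, h2, h3, h4⟩ := hy _ _ (hm.adj _ h1)
          have hbb : b = c ∨ b = d := by
            rcases le_total b (lk b) with hle | hle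
            · rw [min_eq_left hle] at h3
              rcases le_total c d with hle' | hle'
              · rw [min_eq_left hle'] at h3; exact Or.inl h3.symm
              · rw [min_eq_right hle'] at h3; exact Or.inr h3.symm
            · rw [min_eq_right hle] at h3
              have hbl : b = lk (lk b) := (hw.lk b hb).symm
              rcases le_total c d with hle' | hle'
              · rw [min_eq_left hle'] at h3
                right
                rw [hbl, ← h3]
              · rw [min_eq_right hle'] at h3
                left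
                rw [hbl, ← h3, hdc]
          simp only [decide_eq_true_eq]
          rcases hbb with rfl | rfl
          · left
            rw [← h4, hm.invol]
          · right
            rw [← h4, hm.invol]
      unfold Blossom.rel at hgoal
      rw [decide_eq_false hself, cond_false, Bool.and_eq_true] at hgoal
      exact hgoal.1

theorem IsSol.rel' {w : ℕ → Bool} (hw : Wf n C nd lk) (h : IsSol C nd lk R w) {c : ℕ}
    (hc : c ∈ C) : Blossom.rel lk R c (w c) (w (lk c)) = true := by
  have h1 := h.rel c hc
  unfold Blossom.rel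
  by_cases hself : lk c = c
  · rw [decide_eq_true hself, cond_true]
    rwa [hself] at h1
  · have h2 := h.rel (lk c) (hw.mem c hc)
    rw [hw.lk c hc] at h2
    rw [decide_eq_false hself, cond_false, h1, h2]
    rfl

theorem frame_complete (hw : Wf n C nd lk) {w : ℕ → Bool} (h : IsSol C nd lk R w) :
    ∃ m : ℕ → ℕ, IsMat (Ad (3 * n, fEdges n C nd lk R)) m ∧
      ∀ v ∈ fReq n C nd lk R, v < 3 * n → m v ≠ v := by
  set q : ℕ → ℕ → Prop := fun u v =>
    (∃ c ∈ C, w c = true ∧ u = nd c ∧ v = n + c) ∨
    (∃ c ∈ C, fK (Blossom.rel lk R c) = true ∧ w c = false ∧ w (lk c) = false ∧ u = n + c ∧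
      v = n + lk c) ∨
    (∃ c ∈ C, fY (Blossom.rel lk R c) = true ∧ w c = false ∧ (w (lk c) = true ∨ c < lk c) ∧
      u = n + c ∧ v = 2 * n + min c (lk c)) with hq
  have hKne : ∀ d, fK (Blossom.rel lk R d) = true → lk d ≠ d := fun d hd e => by
    rw [fK_self e] at hd; simp at hd
  have hYne : ∀ d, fY (Blossom.rel lk R d) = true → lk d ≠ d := fun d hd e => by
    rw [fY_self e] at hd; simp at hd
  have hq1 : ∀ u v, q u v → (u, v) ∈ fEdges n C nd lk R ∧ u < 3 * n ∧ v < 3 * n ∧ u ≠ v := by
    rintro u v (⟨c, hc, h1, rfl, rfl⟩ | ⟨c, hc, h1, h2, h3, rfl, rfl⟩ |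
      ⟨c, hc, h1, h2, h3, rfl, rfl⟩)
    · have h2 := h.rel' hw hc
      rw [h1] at h2
      have := hw.nd c hc
      have := hw.lt c hc
      refine ⟨mem_fEdges.2 (Or.inl ⟨c, hc, gadget_complete2 h2, rfl, rfl⟩), ?_, ?_, ?_⟩ <;> omega
    · have := hw.lt c hc
      have := hw.lt _ (hw.mem c hc)
      have := hKne c h1
      refine ⟨mem_fEdges.2 (Or.inr (Or.inl ⟨c, hc, h1, rfl, rfl⟩)), ?_, ?_, ?_⟩ <;> omega
    · have := hw.lt c hc
      have := hw.lt _ (hw.mem c hc)
      refine ⟨mem_fEdges.2 (Or.inr (Or.inr ⟨c, hc, h1, rfl, rfl⟩)), ?_, ?_, ?_⟩ <;> omega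
  -- the neighbours in the three blocks
  have hnode : ∀ u v, u < n → (q u v ∨ q v u) → ∃ c ∈ C, w c = true ∧ u = nd c ∧ v = n + c := by
    rintro u v hu ((⟨c, hc, h1, h2, h3⟩ | ⟨c, hc, -, -, -, h2, h3⟩ | ⟨c, hc, -, -, -, h2, h3⟩) |
      (⟨c, hc, -, h2, h3⟩ | ⟨c, hc, -, -, -, h2, h3⟩ | ⟨c, hc, -, -, -, h2, h3⟩))
    · exact ⟨c, hc, h1, h2, h3⟩
    all_goals omega
  have hp : ∀ c v, c < n → (q (n + c) v ∨ q v (n + c)) →
      (w c = true ∧ v = nd c) ∨
      (w c = false ∧ fK (Blossom.rel lk R c) = true ∧ v = n + lk c) ∨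
      (w c = false ∧ fY (Blossom.rel lk R c) = true ∧ v = 2 * n + min c (lk c)) := by
    rintro c v hcn ((⟨d, hd, h1, h2, h3⟩ | ⟨d, hd, h0, h1, h1', h2, h3⟩ |
      ⟨d, hd, h0, h1, -, h2, h3⟩) |
      (⟨d, hd, h1, h2, h3⟩ | ⟨d, hd, h0, h1, h1', h2, h3⟩ | ⟨d, hd, -, -, -, h2, h3⟩))
    · have := hw.nd d hd; omega
    · have e : c = d := by omega
      subst e
      exact Or.inr (Or.inl ⟨h1, h0, h3⟩)
    · have e : c = d := by omega
      subst e
      exact Or.inr (Or.inr ⟨h1, h0, h3⟩)
    · have e : c = d := by omega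
      subst e
      exact Or.inl ⟨h1, h2⟩
    · have e : c = lk d := by omega
      have e' : lk c = d := by rw [e, hw.lk d hd]
      refine Or.inr (Or.inl ⟨by rw [e]; exact h1', ?_, by rw [e']; exact h2⟩)
      rw [e, rel_lk (hw.lk d hd) (hKne d h0), fK_tr]
      exact h0
    · have := hw.lt d hd
      have := hw.lt _ (hw.mem d hd)
      omega
  have hy : ∀ e v, (q (2 * n + e) v ∨ q v (2 * n + e)) → ∃ c ∈ C, w c = false ∧
      (w (lk c) = true ∨ c < lk c) ∧ e = min c (lk c) ∧ v = n + c := by
    rintro e v ((⟨d, hd, h1, h2, h3⟩ | ⟨d, hd, -, -, -, h2, h3⟩ | ⟨d, hd, -, -, -, h2, h3⟩) |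
      (⟨d, hd, -, h2, h3⟩ | ⟨d, hd, -, -, -, h2, h3⟩ | ⟨d, hd, -, h0, h1, h2, h3⟩))
    · have := hw.nd d hd; omega
    · have := hw.lt d hd; omega
    · have := hw.lt d hd; omega
    · have := hw.lt d hd; omega
    · have := hw.lt _ (hw.mem d hd); omega
    · exact ⟨d, hd, h0, h1, by omega, h2⟩
  have huniq : ∀ u v v', (q u v ∨ q v u) → (q u v' ∨ q v' u) → v = v' := by
    intro u v v' h1 h2
    rcases Nat.lt_or_ge u n with hu | hu
    · obtain ⟨c, hc, h3, h4, h5⟩ := hnode u v hu h1
      obtain ⟨c', hc', h3', h4', h5'⟩ := hnode u v' hu h2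
      have := h.uniq c hc c' hc' (by rw [← h4, ← h4']) h3 h3'
      rw [h5, h5', this]
    · rcases Nat.lt_or_ge u (2 * n) with hu2 | hu2
      · obtain ⟨c, rfl⟩ := Nat.exists_eq_add_of_le hu
        have hcn : c < n := by omega
        rcases hp c v hcn h1 with ⟨h3, h4⟩ | ⟨h3, h5, h4⟩ | ⟨h3, h5, h4⟩ <;>
          rcases hp c v' hcn h2 with ⟨h3', h4'⟩ | ⟨h3', h5', h4'⟩ | ⟨h3', h5', h4'⟩
        · rw [h4, h4']
        · rw [h3] at h3'; simp at h3'
        · rw [h3] at h3'; simp at h3'
        · rw [h3] at h3'; simp at h3'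
        · rw [h4, h4']
        · rw [not_fK_of_fY h5'] at h5; simp at h5
        · rw [h3] at h3'; simp at h3'
        · rw [not_fK_of_fY h5] at h5'; simp at h5'
        · rw [h4, h4']
      · obtain ⟨e, rfl⟩ := Nat.exists_eq_add_of_le hu2
        obtain ⟨c, hc, h3, h4, h5, h6⟩ := hy e v h1
        obtain ⟨c', hc', h3', h4', h5', h6'⟩ := hy e v' h2
        have hcc : c' = c ∨ c' = lk c := by
          have e1 : c' = e ∨ lk c' = e := by omega
          have e2 : c = e ∨ lk c = e := by omega
          rcases e1 with e1 | e1 <;> rcases e2 with e2 | e2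
          · left; rw [e1, e2]
          · right; rw [e1, e2]
          · right
            rw [← hw.lk c' hc', e1, e2]
          · left
            rw [← hw.lk c' hc', e1, ← e2, hw.lk c hc]
        rcases hcc with e1 | e1
        · rw [h6, h6', e1]
        · exfalso
          rw [e1] at h3' h4'
          rw [hw.lk c hc] at h4'
          rcases h4 with h4 | h4
          · rw [h4] at h3'; simp at h3'
          · rcases h4' with h4' | h4'
            · rw [h4'] at h3; simp at h3
            · omega
  obtain ⟨m, hm, hmr⟩ := exists_mat (x := (3 * n, fEdges n C nd lk R))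
    (fun u v => q u v ∨ q v u) (fun u v h => Or.symm h) huniq (by
      rintro u v (h1 | h1)
      · obtain ⟨h2, h3, h4, h5⟩ := hq1 u v h1
        exact ad_iff.2 ⟨h3, h4, h5, Or.inl h2⟩
      · obtain ⟨h2, h3, h4, h5⟩ := hq1 v u h1
        exact ad_iff.2 ⟨h4, h3, h5.symm, Or.inr h2⟩)
  refine ⟨m, hm, fun v hv _ => ?_⟩
  rw [fReq, List.mem_append, List.mem_append, List.mem_map, List.mem_map, List.mem_map] at hv
  rcases hv with ⟨c, hc, rfl⟩ | ⟨c, hc, rfl⟩ | ⟨c, hc, rfl⟩
  · obtain ⟨d, hd, h1, h2⟩ := h.ex c hc
    have := hmr (nd c) (n + d) (Or.inl (Or.inl ⟨d, hd, h2, h1.symm, rfl⟩))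
    have := hw.nd c hc
    omega
  · rw [List.mem_filter] at hc
    have hcn := hw.lt c hc.1
    have hrel := h.rel' hw hc.1
    cases hwc : w c with
    | true =>
      have := hmr (n + c) (nd c) (Or.inr (Or.inl ⟨c, hc.1, hwc, rfl, rfl⟩))
      have := hw.nd c hc.1
      omega
    | false =>
      rw [hwc] at hrel
      rcases gadget_complete1 hc.2 hrel with ⟨h1, h2⟩ | ⟨h1, h2⟩
      · have := hmr (n + c) (n + lk c)
          (Or.inl (Or.inr (Or.inl ⟨c, hc.1, h1, hwc, h2, rfl, rfl⟩)))
        have := hKne c h1
        omega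
      · have := hmr (n + c) (2 * n + min c (lk c))
          (Or.inl (Or.inr (Or.inr ⟨c, hc.1, h1, hwc, Or.inl h2, rfl, rfl⟩)))
        omega
  · rw [List.mem_filter] at hc
    have hcn := hw.lt c hc.1
    have hdn := hw.lt _ (hw.mem c hc.1)
    have hrel := h.rel' hw hc.1
    have hY := fY_of_fQ hc.2
    have hne := hYne c hY
    have hY' : fY (Blossom.rel lk R (lk c)) = true := by
      rw [rel_lk (hw.lk c hc.1) hne, fY_tr]; exact hY
    have viac : w c = false → (w (lk c) = true ∨ c < lk c) →
        m (2 * n + min c (lk c)) ≠ 2 * n + min c (lk c) := by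
      intro h1 h2
      have := hmr (2 * n + min c (lk c)) (n + c)
        (Or.inr (Or.inr (Or.inr ⟨c, hc.1, hY, h1, h2, rfl, rfl⟩)))
      omega
    have viad : w (lk c) = false → (w c = true ∨ lk c < c) →
        m (2 * n + min c (lk c)) ≠ 2 * n + min c (lk c) := by
      intro h1 h2
      have := hmr (2 * n + min c (lk c)) (n + lk c)
        (Or.inr (Or.inr (Or.inr ⟨lk c, hw.mem c hc.1, hY', h1, by rwa [hw.lk c hc.1], rfl, by
          rw [hw.lk c hc.1, min_comm]⟩)))
      omega
    cases hwc : w c with
    | true =>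
      cases hwd : w (lk c) with
      | true =>
        rw [hwc, hwd, gadget_complete3 hc.2] at hrel
        simp at hrel
      | false => exact viad hwd (Or.inl hwc)
    | false =>
      cases hwd : w (lk c) with
      | true => exact viac hwc (Or.inl hwd)
      | false =>
        rcases Nat.lt_or_gt_of_ne hne with h1 | h1
        · exact viad hwd (Or.inr h1)
        · exact viac hwc (Or.inr h1)

/-- The decision algorithm is correct. -/
theorem frameB_iff (hw : Wf n C nd lk) :
    frameB n C nd lk R = true ↔ ∃ w : ℕ → Bool, IsSol C nd lk R w := by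
  unfold frameB
  rw [coverB_iff]
  constructor
  · rintro ⟨m, hm, hcov⟩
    exact ⟨_, frame_sound hw hm hcov⟩
  · rintro ⟨w, h⟩
    exact frame_complete hw h

end

end Pool.Agent.Work.PolyTime.Blossom
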