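import Pool.Agent.Work.PolyTime.Blossom.PT
import Pool.Agent.Work.PolyTime.Blossom.Frame

/-!
The algorithm for the choice problem with binary relations runs in polynomial time.
-/

set_option autoImplicit false

namespace Pool.Agent.Work.PolyTime.Blossom

open Pool.Agent.Work.PolyTime

section

variable {α : Type} [Code α]

theorem ptime_rel {lk : α → ℕ → ℕ} {R : α → ℕ → Bool → Bool → Bool}
    (hlk : PTime (fun y : α × ℕ => lk y.1 y.2))
    (hR : PTime (fun y : α × ℕ × Bool × Bool => R y.1 y.2.1 y.2.2.1 y.2.2.2)) (u v : Bool) :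
    PTime (fun y : α × ℕ => rel (lk y.1) (R y.1) y.2 u v) := by
  unfold rel
  have h1 : PTime (fun y : α × ℕ => R y.1 y.2 u u) :=
    hR.comp (f := fun y : α × ℕ => (y.1, y.2, u, u)) (by fun_prop)
  have h2 : PTime (fun y : α × ℕ => R y.1 y.2 u v) :=
    hR.comp (f := fun y : α × ℕ => (y.1, y.2, u, v)) (by fun_prop)
  have h3 : PTime (fun y : α × ℕ => R y.1 (lk y.1 y.2) v u) :=
    hR.comp (f := fun y : α × ℕ => (y.1, lk y.1 y.2, v, u)) (by fun_prop)
  fun_prop

variable {n : α → ℕ} {C : α → List ℕ} {nd lk : α → ℕ → ℕ} {R : α → ℕ → Bool → Bool → Bool}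

/-- Polynomial time for the choice problem, all data given by polynomial-time functions. -/
theorem ptime_frameB (hn : PTime n) (hC : PTime C) (hnd : PTime (fun y : α × ℕ => nd y.1 y.2))
    (hlk : PTime (fun y : α × ℕ => lk y.1 y.2))
    (hR : PTime (fun y : α × ℕ × Bool × Bool => R y.1 y.2.1 y.2.2.1 y.2.2.2)) :
    PTime (fun a => frameB (n a) (C a) (nd a) (lk a) (R a)) := by
  have hn' : PTime (fun y : α × ℕ => n y.1) := hn.comp PTime.fst
  have r1 := ptime_rel hlk hR false false
  have r2 := ptime_rel hlk hR false true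
  have r3 := ptime_rel hlk hR true false
  have r4 := ptime_rel hlk hR true true
  have hE : PTime (fun y : α × ℕ => fE (rel (lk y.1) (R y.1) y.2)) := by
    unfold fE; fun_prop
  have hRr : PTime (fun y : α × ℕ => fR (rel (lk y.1) (R y.1) y.2)) := by
    unfold fR; fun_prop
  have hK : PTime (fun y : α × ℕ => fK (rel (lk y.1) (R y.1) y.2)) := by
    unfold fK; fun_prop
  have hY : PTime (fun y : α × ℕ => fY (rel (lk y.1) (R y.1) y.2)) := by
    unfold fY; fun_prop
  have hQ : PTime (fun y : α × ℕ => fQ (rel (lk y.1) (R y.1) y.2)) := by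
    unfold fQ; fun_prop
  have hedges : PTime (fun a => fEdges (n a) (C a) (nd a) (lk a) (R a)) := by
    unfold fEdges
    refine PTime.append ?_ (PTime.append ?_ ?_)
    · refine PTime.map (f := fun a c => (nd a c, n a + c)) ?_ (by fun_prop)
      exact PTime.filter (p := fun a c => fE (rel (lk a) (R a) c)) hC hE
    · refine PTime.map (f := fun a c => (n a + c, n a + lk a c)) ?_ (by fun_prop)
      exact PTime.filter (p := fun a c => fK (rel (lk a) (R a) c)) hC hK
    · refine PTime.map (f := fun a c => (n a + c, 2 * n a + min c (lk a c))) ?_ (by fun_prop)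
      exact PTime.filter (p := fun a c => fY (rel (lk a) (R a) c)) hC hY
  have hreq : PTime (fun a => fReq (n a) (C a) (nd a) (lk a) (R a)) := by
    unfold fReq
    refine PTime.append ?_ (PTime.append ?_ ?_)
    · exact PTime.map (f := fun a c => nd a c) hC hnd
    · refine PTime.map (f := fun a c => n a + c) ?_ (by fun_prop)
      exact PTime.filter (p := fun a c => fR (rel (lk a) (R a) c)) hC hRr
    · refine PTime.map (f := fun a c => 2 * n a + min c (lk a c)) ?_ (by fun_prop)
      exact PTime.filter (p := fun a c => fQ (rel (lk a) (R a) c)) hC hQ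
  unfold frameB
  exact ptime_coverB (x := fun a => (3 * n a, fEdges (n a) (C a) (nd a) (lk a) (R a)))
    (by fun_prop) hreq

end

end Pool.Agent.Work.PolyTime.Blossom
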