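import Pool.Agent.Work.PolyTime.Blossom.Search

/-!
The growth step keeps the invariants of the search for alternating paths.
-/

set_option autoImplicit false

namespace Pool.Agent.Work.PolyTime.Blossom

variable {V : Type*} [DecidableEq V] {adj : V → V → Prop} {m : V → V} {r : V} {P : V → List V}

/-- The growth step: `x` is outer, `y` is a neighbour of `x`, neither `y` nor its partner `m y` is
outer and `y` is matched. -/
theorem Inv.stepG (h : Inv adj m r P) (hm : ∀ v, m (m v) = v) (hr : m r = r)
    (hsymm : ∀ u v, adj u v → adj v u) {x y : V} (hx : P x ≠ []) (hadj : adj x y)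
    (hy : P y = []) (hz : P (m y) = []) (hne : m y ≠ y) :
    Inv adj m r (stepG P x (m y)) := by
  set z := m y with hzdef
  have hmz : m z = y := hm y
  have hrr : P r ≠ [] := by rw [h.root]; simp
  have hzr : z ≠ r := fun e => hrr (e ▸ hz)
  have hyr : y ≠ r := fun e => hrr (e ▸ hy)
  have hold : ∀ v, v ≠ z → Blossom.stepG P x z v = P v := fun v hv => if_neg hv
  have hnew : Blossom.stepG P x z z = z :: P x := if_pos rfl
  have hzP : ∀ v, z ∉ P v := fun v hv => h.outer v z hv hz
  have hyP : ∀ v, y ∉ P v := fun v hv => h.outer v y hv hy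
  have hne' : ∀ v, Blossom.stepG P x z v = [] ↔ P v = [] ∧ v ≠ z := by
    intro v
    by_cases hv : v = z
    · subst hv; rw [hnew]; simp
    · rw [hold v hv]; simp [hv]
  -- bases
  have hbs : ∀ a, P a ≠ [] → bs m r (Blossom.stepG P x z) a = bs m r P a := by
    intro a ha
    rw [Bool.eq_iff_iff, bs_iff, bs_iff, hne']
    have : m a ≠ z := by
      intro e
      have : a = y := by rw [← hm a, e, hmz]
      exact ha (this ▸ hy)
    simp [this]
  have hbsz : bs m r (Blossom.stepG P x z) z = true := by
    rw [bs_iff, hmz, hne']
    exact Or.inr ⟨hy, Ne.symm hne⟩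
  have hfil : ∀ l : List V, (∀ a ∈ l, P a ≠ []) →
      l.filter (bs m r (Blossom.stepG P x z)) = l.filter (bs m r P) := fun l hl =>
    List.filter_congr fun a ha => hbs a (hl a ha)
  have hBold : ∀ v, v ≠ z → B m r (Blossom.stepG P x z) v = B m r P v := by
    intro v hv
    rw [B, B, hold v hv, hfil _ (h.outer v)]
  have hBnew : B m r (Blossom.stepG P x z) z = z :: B m r P x := by
    rw [B, hnew, List.filter_cons, if_pos hbsz, hfil _ (h.outer x), B]
  refine ⟨?_, ?_, ?_, ?_, ?_, ?_, ?_, ?_, ?_⟩
  · rw [hold r (Ne.symm hzr), h.root]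
  · intro v hv
    by_cases e : v = z
    · subst e; rw [hnew]; rfl
    · rw [hold v e] at hv ⊢; exact h.head v hv
  · intro v hv
    by_cases e : v = z
    · subst e; rw [hnew, List.getLast?_cons, h.last x hx]; rfl
    · rw [hold v e] at hv ⊢; exact h.last v hv
  · intro v
    by_cases e : v = z
    · subst e
      rw [hnew]
      refine (h.chain x).cons ?_
      intro w hw
      rw [h.head x hx, Option.mem_some_iff] at hw
      subst hw
      rw [hmz]
      exact hsymm _ _ hadj
    · rw [hold v e]; exact h.chain v
  · intro v a ha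
    rw [Ne, hne', not_and_or, not_not]
    by_cases e : v = z
    · subst e
      rw [hnew, List.mem_cons] at ha
      rcases ha with rfl | ha
      · exact Or.inr rfl
      · exact Or.inl (h.outer x a ha)
    · rw [hold v e] at ha; exact Or.inl (h.outer v a ha)
  · intro v
    by_cases e : v = z
    · subst e
      rw [hnew, List.nodup_cons]
      exact ⟨hzP x, h.nodup x⟩
    · rw [hold v e]; exact h.nodup v
  · intro v a ha b hb hbr
    by_cases e : v = z
    · subst e
      rw [hnew, List.mem_cons] at ha hb
      rcases ha with rfl | ha <;> rcases hb with rfl | hb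
      · rw [hmz]; exact hne
      · intro e'
        have : b = y := by rw [← hm b, ← e', hmz]
        exact hyP x (this ▸ hb)
      · rw [hmz]
        intro e'
        exact hyP x (e' ▸ ha)
      · exact h.reg x a ha b hb hbr
    · rw [hold v e] at ha hb; exact h.reg v a ha b hb hbr
  · intro v l₁ a l₂ e
    by_cases hv : v = z
    · subst hv
      rw [hnew] at e
      cases l₁ with
      | nil =>
        rw [List.nil_append, List.cons.injEq] at e
        obtain ⟨rfl, e⟩ := e
        rw [hBnew, List.filter_cons, if_pos hbsz, ← e, hfil _ (h.outer x), B]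
      | cons c k =>
        rw [List.cons_append, List.cons.injEq] at e
        obtain ⟨rfl, e⟩ := e
        have haP : a ∈ P x := by rw [e]; simp
        rw [hBold a (fun e' => hzP x (e' ▸ haP)), h.d1 x k a l₂ e, hfil]
        intro u hu
        exact h.outer x u (by rw [e]; exact List.mem_append_right _ hu)
    · rw [hold v hv] at e
      have haP : a ∈ P v := by rw [e]; simp
      rw [hBold a (fun e' => hzP v (e' ▸ haP)), h.d1 v l₁ a l₂ e, hfil]
      intro u hu
      exact h.outer v u (by rw [e]; exact List.mem_append_right _ hu)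
  · intro a ha har hma
    have haz : a ≠ z := by
      rintro rfl
      rw [hmz, Ne, hne'] at hma
      exact hma ⟨hy, Ne.symm hne⟩
    have hmaz : m a ≠ z := by
      intro e'
      have : a = y := by rw [← hm a, e', hmz]
      subst this
      exact ha ((hne' _).2 ⟨hy, haz⟩)
    rw [hold a haz] at ha
    rw [hold _ hmaz] at hma
    rw [hBold a haz, hBold _ hmaz]
    exact h.d2 a ha har hma

end Pool.Agent.Work.PolyTime.Blossom
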