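import Pool.Agent.Work.PolyTime.More
import Pool.Agent.Work.PolyTime.Blossom.Cover

/-!
The algorithm for matchings that cover the required vertices runs in polynomial time.
-/

set_option autoImplicit false

namespace Pool.Agent.Work.PolyTime.Blossom

open Pool.Agent.Work.PolyTime

section

variable {α β : Type} [Code α] [Code β]

theorem ptime_decide {p : α → Prop} [DecidablePred p] {b : α → Bool} (hb : PTime b)
    (h : ∀ a, b a = true ↔ p a) : PTime (fun a => decide (p a)) := by
  refine hb.code_congr fun a => ?_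
  rw [Bool.eq_iff_iff, h, decide_eq_true_eq]

@[fun_prop]
theorem ptime_isEmpty {l : α → List β} (hl : PTime l) : PTime (fun a => (l a).isEmpty) := by
  refine PTime.listCases hl (g := fun _ => true) (h := fun _ => false) (by fun_prop)
    (by fun_prop) ?_ ?_
  · intro a ha; rw [ha]; rfl
  · intro a b m ha; rw [ha]; rfl

@[fun_prop]
theorem ptime_getD {l : α → List β} {n : α → ℕ} {d : α → β} (hl : PTime l) (hn : PTime n)
    (hd : PTime d) : PTime (fun a => (l a).getD (n a) (d a)) := by
  refine PTime.optionCases (o := fun a => ((l a).drop (n a)).head?) (by fun_prop) (g := d)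
    (h := fun y => y.2) hd (by fun_prop) ?_ ?_
  · intro a ha
    rw [List.head?_drop] at ha
    rw [List.getD_eq_getElem?_getD, ha]; rfl
  · intro a b ha
    rw [List.head?_drop] at ha
    rw [List.getD_eq_getElem?_getD, ha]; rfl

@[fun_prop]
theorem ptime_eB {x : α → Gr} {u v : α → ℕ} (hx : PTime x) (hu : PTime u) (hv : PTime v) :
    PTime (fun a => eB (x a) (u a) (v a)) := by
  unfold eB
  have h1 : PTime (fun a => decide ((u a, v a) ∈ (x a).2)) :=
    ptime_decide (b := fun a => memB (u a, v a) (x a).2) (by fun_prop) fun _ => memB_iff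
  have h2 : PTime (fun a => decide ((v a, u a) ∈ (x a).2)) :=
    ptime_decide (b := fun a => memB (v a, u a) (x a).2) (by fun_prop) fun _ => memB_iff
  fun_prop

@[fun_prop]
theorem ptime_pth {S : α → List (List ℕ)} {z : α → ℕ} (hS : PTime S) (hz : PTime z) :
    PTime (fun a => pth (S a) (z a)) := by
  unfold pth
  fun_prop

@[fun_prop]
theorem ptime_mat {M : α → List ℕ} {v : α → ℕ} (hM : PTime M) (hv : PTime v) :
    PTime (fun a => mat (M a) (v a)) := by
  unfold mat
  fun_prop

@[fun_prop]
theorem ptime_gd {n : α → ℕ} {l : α → List ℕ} (hn : PTime n) (hl : PTime l) :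
    PTime (fun a => gd (n a) (l a)) := by
  unfold gd
  refine PTime.take (PTime.filter hl ?_) hn
  exact PTime.natLt PTime.snd (hn.comp PTime.fst)

theorem ptime_tab {n : α → ℕ} {f : α → ℕ → List ℕ} (hn : PTime n)
    (hf : PTime (fun y : α × ℕ => f y.1 y.2)) : PTime (fun a => tab (n a) (f a)) := by
  unfold tab
  refine PTime.map (f := fun a z => gd (n a) (f a z)) (PTime.range hn) ?_
  exact ptime_gd (hn.comp PTime.fst) hf

@[fun_prop]
theorem ptime_pairsOf {n : α → ℕ} (hn : PTime n) : PTime (fun a => pairsOf (n a)) := by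
  unfold pairsOf
  refine PTime.flatMap (f := fun a x => (List.range (n a)).map fun y => (x, y)) (PTime.range hn) ?_
  refine PTime.map (f := fun (y : α × ℕ) z => (y.2, z)) (PTime.range (hn.comp PTime.fst)) ?_
  fun_prop

@[fun_prop]
theorem ptime_bs {M : α → List ℕ} {S : α → List (List ℕ)} {r v : α → ℕ} (hM : PTime M)
    (hS : PTime S) (hr : PTime r) (hv : PTime v) :
    PTime (fun a => bs (mat (M a)) (r a) (pth (S a)) (v a)) := by
  unfold bs
  fun_prop

@[fun_prop]
theorem ptime_B {M : α → List ℕ} {S : α → List (List ℕ)} {r v : α → ℕ} (hM : PTime M)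
    (hS : PTime S) (hr : PTime r) (hv : PTime v) :
    PTime (fun a => B (mat (M a)) (r a) (pth (S a)) (v a)) := by
  unfold B
  refine PTime.filter (p := fun a u => bs (mat (M a)) (r a) (pth (S a)) u) (by fun_prop) ?_
  exact ptime_bs (hM.comp PTime.fst) (hS.comp PTime.fst) (hr.comp PTime.fst) PTime.snd

@[fun_prop]
theorem ptime_stepG {S : α → List (List ℕ)} {x z v : α → ℕ} (hS : PTime S) (hx : PTime x)
    (hz : PTime z) (hv : PTime v) : PTime (fun a => stepG (pth (S a)) (x a) (z a) (v a)) := by
  unfold stepG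
  exact PTime.ite (by fun_prop) (by fun_prop) (by fun_prop)

theorem pre_eq_foldl (m : ℕ → ℕ) (b : ℕ) (l : List ℕ) : ∀ acc : List ℕ, pre m b l acc =
    (l.foldl (fun s a => bif s.1 then s else (decide (a = b), m a :: s.2)) (false, acc)).2 := by
  have stop : ∀ (l : List ℕ) (acc : List ℕ),
      (l.foldl (fun s a => bif s.1 then s else (decide (a = b), m a :: s.2)) (true, acc)) =
        (true, acc) := by
    intro l
    induction l with
    | nil => intro acc; rfl
    | cons a l ih => intro acc; rw [List.foldl_cons]; exact ih acc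
  induction l with
  | nil => intro acc; rfl
  | cons a l ih =>
    intro acc
    rw [List.foldl_cons, pre]
    by_cases h : a = b
    · rw [if_pos h]
      simp only [h, cond_false, decide_true]
      rw [stop]
    · rw [if_neg h, ih]
      simp only [h, cond_false, decide_false]

@[fun_prop]
theorem ptime_pre {M : α → List ℕ} {b : α → ℕ} {l acc : α → List ℕ} (hM : PTime M)
    (hb : PTime b) (hl : PTime l) (hacc : PTime acc) :
    PTime (fun a => pre (mat (M a)) (b a) (l a) (acc a)) := by
  have hval : PTime (fun y : α × ℕ => mat (M y.1) y.2) := ptime_mat (hM.comp PTime.fst) PTime.snd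
  obtain ⟨G, hG, hG'⟩ := PTime.exists_bound hl hval
  have h : PTime (fun a => (l a).foldl (fun s v => (fun y : α × (Bool × List ℕ) × ℕ =>
      bif y.2.1.1 then y.2.1 else (decide (y.2.2 = b y.1), mat (M y.1) y.2.2 :: y.2.1.2)) (a, s, v))
      (false, acc a)) := by
    refine PTime.foldlGrow (f := fun y : α × (Bool × List ℕ) × ℕ =>
      bif y.2.1.1 then y.2.1 else (decide (y.2.2 = b y.1), mat (M y.1) y.2.2 :: y.2.1.2)) hl
      (by fun_prop) ?_ (G := fun a => 4 + G a) ((PB.const 4).add hG) ?_
    · have h1 : PTime (fun y : α × (Bool × List ℕ) × ℕ => b y.1) := hb.comp PTime.fst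
      have h2 : PTime (fun y : α × (Bool × List ℕ) × ℕ => mat (M y.1) y.2.2) :=
        ptime_mat (hM.comp PTime.fst) (by fun_prop)
      fun_prop
    · intro a v hv s
      have h1 := hG' a v hv
      obtain ⟨s1, s2⟩ := s
      cases s1 with
      | true => simp only [cond_true]; omega
      | false =>
        simp only [cond_false, sz_pair, sz_cons, sz_false]
        have := sz_bool (decide (v = b a))
        simp only at h1
        omega
  refine (PTime.snd.comp h).code_congr fun a => ?_
  rw [pre_eq_foldl]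

@[fun_prop]
theorem ptime_stepB {M : α → List ℕ} {S : α → List (List ℕ)} {r x y v : α → ℕ} (hM : PTime M)
    (hS : PTime S) (hr : PTime r) (hx : PTime x) (hy : PTime y) (hv : PTime v) :
    PTime (fun a => stepB (mat (M a)) (r a) (pth (S a)) (x a) (y a) (v a)) := by
  unfold stepB
  have h1 : PTime (fun a => decide (mat (M a) (v a) ∈ B (mat (M a)) (r a) (pth (S a)) (x a))) :=
    PTime.mem (by fun_prop) (by fun_prop)
  have h2 : PTime (fun a => decide (mat (M a) (v a) ∈ B (mat (M a)) (r a) (pth (S a)) (y a))) :=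
    PTime.mem (by fun_prop) (by fun_prop)
  refine PTime.ite (ptime_decide (b := fun a => !(pth (S a) (v a)).isEmpty) (by fun_prop) ?_)
    (by fun_prop) (PTime.ite (ptime_decide (b := fun a =>
      decide (mat (M a) (v a) ∈ B (mat (M a)) (r a) (pth (S a)) (x a)) &&
      !decide (mat (M a) (v a) ∈ B (mat (M a)) (r a) (pth (S a)) (y a))) (by fun_prop) ?_)
      (by fun_prop) (PTime.ite (ptime_decide (b := fun a =>
      decide (mat (M a) (v a) ∈ B (mat (M a)) (r a) (pth (S a)) (y a)) &&
      !decide (mat (M a) (v a) ∈ B (mat (M a)) (r a) (pth (S a)) (x a))) (by fun_prop) ?_)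
      (by fun_prop) (by fun_prop)))
  · intro a; simp
  · intro a; simp
  · intro a; simp

@[fun_prop]
theorem ptime_candG {x : α → Gr} {M : α → List ℕ} {S : α → List (List ℕ)} (hx : PTime x)
    (hM : PTime M) (hS : PTime S) : PTime (fun a => candG (x a) (M a) (S a)) := by
  unfold candG
  refine PTime.filter (p := fun a (p : ℕ × ℕ) => !(pth (S a) p.1).isEmpty &&
    (eB (x a) p.1 p.2 && ((pth (S a) p.2).isEmpty && ((pth (S a) (mat (M a) p.2)).isEmpty &&
      !decide (mat (M a) p.2 = p.2))))) (by fun_prop) ?_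
  have h1 : PTime (fun y : α × (ℕ × ℕ) => x y.1) := hx.comp PTime.fst
  have h2 : PTime (fun y : α × (ℕ × ℕ) => M y.1) := hM.comp PTime.fst
  have h3 : PTime (fun y : α × (ℕ × ℕ) => S y.1) := hS.comp PTime.fst
  fun_prop

@[fun_prop]
theorem ptime_candB {x : α → Gr} {M : α → List ℕ} {r : α → ℕ} {S : α → List (List ℕ)}
    (hx : PTime x) (hM : PTime M) (hr : PTime r) (hS : PTime S) :
    PTime (fun a => candB (x a) (M a) (r a) (S a)) := by
  unfold candB
  refine PTime.filter (p := fun a (p : ℕ × ℕ) => !(pth (S a) p.1).isEmpty &&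
    (!(pth (S a) p.2).isEmpty && (eB (x a) p.1 p.2 &&
      !decide ((B (mat (M a)) (r a) (pth (S a)) p.1).head? =
        (B (mat (M a)) (r a) (pth (S a)) p.2).head?)))) (by fun_prop) ?_
  have h1 : PTime (fun y : α × (ℕ × ℕ) => x y.1) := hx.comp PTime.fst
  have h2 : PTime (fun y : α × (ℕ × ℕ) => M y.1) := hM.comp PTime.fst
  have h3 : PTime (fun y : α × (ℕ × ℕ) => S y.1) := hS.comp PTime.fst
  have h4 : PTime (fun y : α × (ℕ × ℕ) => r y.1) := hr.comp PTime.fst
  fun_prop

@[fun_prop]
theorem ptime_sstep {x : α → Gr} {M : α → List ℕ} {r : α → ℕ} {S : α → List (List ℕ)}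
    (hx : PTime x) (hM : PTime M) (hr : PTime r) (hS : PTime S) :
    PTime (fun a => sstep (x a) (M a) (r a) (S a)) := by
  have hinner : PTime (fun a => match candB (x a) (M a) (r a) (S a) with
      | p :: _ => tab (x a).1 (stepB (mat (M a)) (r a) (pth (S a)) p.1 p.2)
      | [] => S a) := by
    refine PTime.listCases (l := fun a => candB (x a) (M a) (r a) (S a)) (by fun_prop)
      (g := S) (h := fun y => tab (x y.1).1 (stepB (mat (M y.1)) (r y.1) (pth (S y.1)) y.2.1.1
        y.2.1.2)) hS ?_ ?_ ?_
    · refine ptime_tab (f := fun (y : α × (ℕ × ℕ) × List (ℕ × ℕ)) z =>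
        stepB (mat (M y.1)) (r y.1) (pth (S y.1)) y.2.1.1 y.2.1.2 z) (by
          have h1 : PTime (fun y : α × (ℕ × ℕ) × List (ℕ × ℕ) => x y.1) := hx.comp PTime.fst
          fun_prop) ?_
      refine ptime_stepB ?_ ?_ ?_ (by fun_prop) (by fun_prop) PTime.snd
      · exact hM.comp (PTime.fst.comp PTime.fst)
      · exact hS.comp (PTime.fst.comp PTime.fst)
      · exact hr.comp (PTime.fst.comp PTime.fst)
    · intro a ha; simp only [ha]
    · intro a p l ha; simp only [ha]
  refine PTime.listCases (l := fun a => candG (x a) (M a) (S a)) (by fun_prop)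
    (g := fun a => match candB (x a) (M a) (r a) (S a) with
      | p :: _ => tab (x a).1 (stepB (mat (M a)) (r a) (pth (S a)) p.1 p.2)
      | [] => S a)
    (h := fun y => tab (x y.1).1 (stepG (pth (S y.1)) y.2.1.1 (mat (M y.1) y.2.1.2))) hinner ?_ ?_ ?_
  · refine ptime_tab (f := fun (y : α × (ℕ × ℕ) × List (ℕ × ℕ)) z =>
      stepG (pth (S y.1)) y.2.1.1 (mat (M y.1) y.2.1.2) z) (by
        have h1 : PTime (fun y : α × (ℕ × ℕ) × List (ℕ × ℕ) => x y.1) := hx.comp PTime.fst
        fun_prop) ?_
    refine ptime_stepG ?_ (by fun_prop) ?_ PTime.snd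
    · exact hS.comp (PTime.fst.comp PTime.fst)
    · refine ptime_mat ?_ (by fun_prop)
      exact hM.comp (PTime.fst.comp PTime.fst)
  · intro a ha; unfold sstep; simp only [ha]; rfl
  · intro a p l ha; unfold sstep; simp only [ha]

/-! ### Sizes -/

theorem sz_gd_le (n : ℕ) (l : List ℕ) : sz (gd n l) ≤ 1 + n * (2 + 2 * n) := by
  have h1 : ∀ a ∈ gd n l, sz a ≤ 1 + 2 * n := by
    intro a ha
    have h2 := List.mem_of_mem_take ha
    rw [List.mem_filter] at h2
    have h3 := h2.2
    simp only [decide_eq_true_eq] at h3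
    rw [sz_nat]
    omega
  refine (sz_list_le _ _ h1).trans ?_
  have h2 : (gd n l).length ≤ n := by
    unfold gd
    exact List.length_take_le _ _
  have h3 := Nat.mul_le_mul_right (1 + (1 + 2 * n)) h2
  have h4 : n * (1 + (1 + 2 * n)) = n * (2 + 2 * n) := by ring
  omega

theorem sz_tab_le (n : ℕ) (f : ℕ → List ℕ) : sz (tab n f) ≤ 1 + n * (2 + n * (2 + 2 * n)) := by
  have h1 : ∀ a ∈ tab n f, sz a ≤ 1 + n * (2 + 2 * n) := by
    intro a ha
    unfold tab at ha
    rw [List.mem_map] at ha
    obtain ⟨z, -, rfl⟩ := ha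
    exact sz_gd_le n (f z)
  refine (sz_list_le _ _ h1).trans ?_
  have h2 : (tab n f).length = n := by unfold tab; simp
  rw [h2]
  have : n * (1 + (1 + n * (2 + 2 * n))) = n * (2 + n * (2 + 2 * n)) := by ring
  omega

theorem sz_sstep_le {x : Gr} {M : List ℕ} {r : ℕ} {S : List (List ℕ)}
    (h : sz S ≤ 1 + x.1 * (2 + x.1 * (2 + 2 * x.1))) :
    sz (sstep x M r S) ≤ 1 + x.1 * (2 + x.1 * (2 + 2 * x.1)) := by
  unfold sstep
  split
  · exact sz_tab_le _ _
  · split
    · exact sz_tab_le _ _
    · exact h

theorem pb_nat {n : α → ℕ} (hn : PTime n) : PB n := by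
  refine hn.sz_le.mono fun a => ?_
  rw [sz_nat]
  omega

@[fun_prop]
theorem ptime_search {x : α → Gr} {M : α → List ℕ} {r : α → ℕ} (hx : PTime x) (hM : PTime M)
    (hr : PTime r) : PTime (fun a => search (x a) (M a) (r a)) := by
  unfold search
  have hn : PTime (fun a => (x a).1) := by fun_prop
  have hpb : PB (fun a => (x a).1) := pb_nat hn
  refine PTime.foldl (l := fun a => List.range ((x a).1 + 1))
    (s := fun a => tab (x a).1 fun z => if z = r a then [r a] else [])
    (f := fun y : α × List (List ℕ) × ℕ => sstep (x y.1) (M y.1) (r y.1) y.2.1)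
    (by fun_prop) ?_ ?_
    (B := fun a => 1 + (x a).1 * (2 + (x a).1 * (2 + 2 * (x a).1))) ?_ ?_
  · refine ptime_tab (f := fun a z => if z = r a then [r a] else []) hn ?_
    refine PTime.ite ?_ ?_ (by fun_prop)
    · exact PTime.eq PTime.snd (hr.comp PTime.fst)
    · exact PTime.cons (hr.comp PTime.fst) (by fun_prop)
  · exact ptime_sstep (hx.comp PTime.fst) (hM.comp PTime.fst) (hr.comp PTime.fst) (by fun_prop)
  · exact (PB.const 1).add (hpb.mul ((PB.const 2).add (hpb.mul ((PB.const 2).add
      ((PB.const 2).mul hpb)))))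
  · intro a l' _
    have key : ∀ (l' : List ℕ) (S : List (List ℕ)),
        sz S ≤ 1 + (x a).1 * (2 + (x a).1 * (2 + 2 * (x a).1)) →
        sz (l'.foldl (fun s _ => sstep (x a) (M a) (r a) s) S) ≤
          1 + (x a).1 * (2 + (x a).1 * (2 + 2 * (x a).1)) := by
      intro l'
      induction l' with
      | nil => intro S h; exact h
      | cons b l' ih => intro S h; rw [List.foldl_cons]; exact ih _ (sz_sstep_le h)
    exact key l' _ (sz_tab_le _ _)

/-! ### Changing the matching -/

theorem flip_eq_foldl (m : ℕ → ℕ) (v : ℕ) (l : List ℕ) : flip m l v =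
    ((l.zip l.tail).foldl (fun s p => bif s.1 then s else bif decide (v = p.1) then (true, p.1)
      else bif decide (v = m p.1) then (true, p.2) else bif decide (v = p.2) then (true, m p.1)
      else s) (false, m v)).2 := by
  have stop : ∀ (l : List (ℕ × ℕ)) (w : ℕ),
      (l.foldl (fun s p => bif s.1 then s else bif decide (v = p.1) then (true, p.1)
      else bif decide (v = m p.1) then (true, p.2) else bif decide (v = p.2) then (true, m p.1)
      else s) (true, w)) = (true, w) := by
    intro l
    induction l with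
    | nil => intro w; rfl
    | cons a l ih => intro w; rw [List.foldl_cons]; exact ih w
  induction l with
  | nil => rfl
  | cons a l ih =>
    cases l with
    | nil => rfl
    | cons b l =>
      have e : (a :: b :: l).zip (a :: b :: l).tail = (a, b) :: (b :: l).zip (b :: l).tail := rfl
      rw [e, List.foldl_cons, flip]
      simp only [cond_false]
      by_cases h1 : v = a
      · rw [if_pos h1]
        simp only [h1, decide_true, cond_true]
        subst h1
        rw [stop]
      · rw [if_neg h1]
        simp only [h1, decide_false, cond_false]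
        by_cases h2 : v = m a
        · rw [if_pos h2]
          simp only [← h2, decide_true, cond_true]
          rw [stop]
        · rw [if_neg h2]
          simp only [h2, decide_false, cond_false]
          by_cases h3 : v = b
          · rw [if_pos h3]
            simp only [h3, decide_true, cond_true]
            subst h3
            rw [stop]
          · rw [if_neg h3]
            simp only [h3, decide_false, cond_false]
            exact ih

@[fun_prop]
theorem ptime_flip {M : α → List ℕ} {l : α → List ℕ} {v : α → ℕ} (hM : PTime M) (hl : PTime l)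
    (hv : PTime v) : PTime (fun a => flip (mat (M a)) (l a) (v a)) := by
  have hz : PTime (fun a => (l a).zip (l a).tail) := by fun_prop
  have hval : PTime (fun y : α × (ℕ × ℕ) => (y.2, mat (M y.1) y.2.1)) := by
    have h1 : PTime (fun y : α × (ℕ × ℕ) => M y.1) := hM.comp PTime.fst
    fun_prop
  obtain ⟨G, hG, hG'⟩ := PTime.exists_bound hz hval
  have h : PTime (fun a => ((l a).zip (l a).tail).foldl (fun s p =>
      (fun y : α × (Bool × ℕ) × (ℕ × ℕ) => bif y.2.1.1 then y.2.1 else
        bif decide (v y.1 = y.2.2.1) then (true, y.2.2.1) else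
        bif decide (v y.1 = mat (M y.1) y.2.2.1) then (true, y.2.2.2) else
        bif decide (v y.1 = y.2.2.2) then (true, mat (M y.1) y.2.2.1) else y.2.1) (a, s, p))
      (false, mat (M a) (v a))) := by
    refine PTime.foldlGrow (f := fun y : α × (Bool × ℕ) × (ℕ × ℕ) => bif y.2.1.1 then y.2.1 else
        bif decide (v y.1 = y.2.2.1) then (true, y.2.2.1) else
        bif decide (v y.1 = mat (M y.1) y.2.2.1) then (true, y.2.2.2) else
        bif decide (v y.1 = y.2.2.2) then (true, mat (M y.1) y.2.2.1) else y.2.1) hz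
      (by fun_prop) ?_ (G := fun a => 4 + G a) ((PB.const 4).add hG) ?_
    · have h1 : PTime (fun y : α × (Bool × ℕ) × (ℕ × ℕ) => v y.1) := hv.comp PTime.fst
      have h2 : PTime (fun y : α × (Bool × ℕ) × (ℕ × ℕ) => M y.1) := hM.comp PTime.fst
      fun_prop
    · intro a p hp s
      have h1 := hG' a p hp
      obtain ⟨s1, s2⟩ := s
      obtain ⟨p1, p2⟩ := p
      simp only [sz_pair] at h1
      cases s1 with
      | true => simp only [cond_true]; omega
      | false =>
        simp only [cond_false]
        cases decide (v a = p1) with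
        | true => simp only [cond_true, sz_pair, sz_true]; omega
        | false =>
          simp only [cond_false]
          cases decide (v a = mat (M a) p1) with
          | true => simp only [cond_true, sz_pair, sz_true]; omega
          | false =>
            simp only [cond_false]
            cases decide (v a = p2) with
            | true => simp only [cond_true, sz_pair, sz_true]; omega
            | false => simp only [cond_false]; omega
  refine (PTime.snd.comp h).code_congr fun a => ?_
  rw [flip_eq_foldl]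

theorem ptime_mtab {n : α → ℕ} {f : α → ℕ → ℕ} (hn : PTime n)
    (hf : PTime (fun y : α × ℕ => f y.1 y.2)) : PTime (fun a => mtab (n a) (f a)) := by
  unfold mtab
  refine PTime.map (f := fun a v => if f a v < n a then f a v else v) (PTime.range hn) ?_
  refine PTime.ite ?_ hf PTime.snd
  exact PTime.natLt hf (hn.comp PTime.fst)

@[fun_prop]
theorem ptime_cand1 {x : α → Gr} {Q : α → List ℕ} {S : α → List (List ℕ)} (hx : PTime x)
    (hQ : PTime Q) (hS : PTime S) : PTime (fun a => cand1 (x a) (Q a) (S a)) := by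
  unfold cand1
  refine PTime.filter (p := fun a v => !(pth (S a) v).isEmpty && !decide (v ∈ Q a))
    (by fun_prop) ?_
  have h1 : PTime (fun y : α × ℕ => decide (y.2 ∈ Q y.1)) :=
    PTime.mem PTime.snd (hQ.comp PTime.fst)
  have h2 : PTime (fun y : α × ℕ => S y.1) := hS.comp PTime.fst
  fun_prop

@[fun_prop]
theorem ptime_cand2 {x : α → Gr} {M : α → List ℕ} {r : α → ℕ} {S : α → List (List ℕ)}
    (hx : PTime x) (hM : PTime M) (hr : PTime r) (hS : PTime S) :
    PTime (fun a => cand2 (x a) (M a) (r a) (S a)) := by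
  unfold cand2
  refine PTime.filter (p := fun a (p : ℕ × ℕ) => !(pth (S a) p.1).isEmpty &&
    (eB (x a) p.1 p.2 && (decide (mat (M a) p.2 = p.2) && !decide (p.2 = r a)))) (by fun_prop) ?_
  have h1 : PTime (fun y : α × (ℕ × ℕ) => x y.1) := hx.comp PTime.fst
  have h2 : PTime (fun y : α × (ℕ × ℕ) => M y.1) := hM.comp PTime.fst
  have h3 : PTime (fun y : α × (ℕ × ℕ) => S y.1) := hS.comp PTime.fst
  have h4 : PTime (fun y : α × (ℕ × ℕ) => r y.1) := hr.comp PTime.fst
  fun_prop

@[fun_prop]
theorem ptime_newM {x : α → Gr} {Q M : α → List ℕ} {r : α → ℕ} {S : α → List (List ℕ)}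
    (hx : PTime x) (hQ : PTime Q) (hM : PTime M) (hr : PTime r) (hS : PTime S) :
    PTime (fun a => newM (x a) (Q a) (M a) (r a) (S a)) := by
  have hinner : PTime (fun a => match cand2 (x a) (M a) (r a) (S a) with
      | p :: _ => mtab (x a).1 (join (flip (mat (M a)) (pth (S a) p.1)) p.1 p.2)
      | [] => M a) := by
    refine PTime.listCases (l := fun a => cand2 (x a) (M a) (r a) (S a)) (by fun_prop)
      (g := M) (h := fun y => mtab (x y.1).1 (join (flip (mat (M y.1)) (pth (S y.1) y.2.1.1))
        y.2.1.1 y.2.1.2)) hM ?_ ?_ ?_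
    · refine ptime_mtab (f := fun (y : α × (ℕ × ℕ) × List (ℕ × ℕ)) z =>
        join (flip (mat (M y.1)) (pth (S y.1) y.2.1.1)) y.2.1.1 y.2.1.2 z) (by
          have h1 : PTime (fun y : α × (ℕ × ℕ) × List (ℕ × ℕ) => x y.1) := hx.comp PTime.fst
          fun_prop) ?_
      unfold join
      have h1 : PTime (fun y : (α × (ℕ × ℕ) × List (ℕ × ℕ)) × ℕ => M y.1.1) :=
        hM.comp (PTime.fst.comp PTime.fst)
      have h2 : PTime (fun y : (α × (ℕ × ℕ) × List (ℕ × ℕ)) × ℕ => S y.1.1) :=
        hS.comp (PTime.fst.comp PTime.fst)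
      refine PTime.ite (by fun_prop) (by fun_prop) (PTime.ite (by fun_prop) (by fun_prop)
        (by fun_prop))
    · intro a ha; simp only [ha]
    · intro a p l ha; simp only [ha]
  refine PTime.listCases (l := fun a => cand1 (x a) (Q a) (S a)) (by fun_prop)
    (g := fun a => match cand2 (x a) (M a) (r a) (S a) with
      | p :: _ => mtab (x a).1 (join (flip (mat (M a)) (pth (S a) p.1)) p.1 p.2)
      | [] => M a)
    (h := fun y => mtab (x y.1).1 (flip (mat (M y.1)) (pth (S y.1) y.2.1))) hinner ?_ ?_ ?_
  · refine ptime_mtab (f := fun (y : α × ℕ × List ℕ) z =>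
      flip (mat (M y.1)) (pth (S y.1) y.2.1) z) (by
        have h1 : PTime (fun y : α × ℕ × List ℕ => x y.1) := hx.comp PTime.fst
        fun_prop) ?_
    have h1 : PTime (fun y : (α × ℕ × List ℕ) × ℕ => M y.1.1) :=
      hM.comp (PTime.fst.comp PTime.fst)
    have h2 : PTime (fun y : (α × ℕ × List ℕ) × ℕ => S y.1.1) :=
      hS.comp (PTime.fst.comp PTime.fst)
    fun_prop
  · intro a ha; unfold newM; simp only [ha]; rfl
  · intro a p l ha; unfold newM; simp only [ha]

@[fun_prop]
theorem ptime_expd {x : α → Gr} {Q M : α → List ℕ} (hx : PTime x) (hQ : PTime Q)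
    (hM : PTime M) : PTime (fun a => expd (x a) (Q a) (M a)) := by
  unfold expd
  refine PTime.filter (p := fun a v => decide (v ∈ Q a) && decide (mat (M a) v = v))
    (by fun_prop) ?_
  have h1 : PTime (fun y : α × ℕ => decide (y.2 ∈ Q y.1)) :=
    PTime.mem PTime.snd (hQ.comp PTime.fst)
  have h2 : PTime (fun y : α × ℕ => M y.1) := hM.comp PTime.fst
  fun_prop

@[fun_prop]
theorem ptime_round {x : α → Gr} {Q M : α → List ℕ} (hx : PTime x) (hQ : PTime Q)
    (hM : PTime M) : PTime (fun a => round (x a) (Q a) (M a)) := by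
  refine PTime.listCases (l := fun a => expd (x a) (Q a) (M a)) (by fun_prop) (g := M)
    (h := fun y => newM (x y.1) (Q y.1) (M y.1) y.2.1 (search (x y.1) (M y.1) y.2.1)) hM ?_ ?_ ?_
  · have h1 : PTime (fun y : α × ℕ × List ℕ => x y.1) := hx.comp PTime.fst
    have h2 : PTime (fun y : α × ℕ × List ℕ => M y.1) := hM.comp PTime.fst
    have h3 : PTime (fun y : α × ℕ × List ℕ => Q y.1) := hQ.comp PTime.fst
    fun_prop
  · intro a ha; unfold round; simp only [ha]
  · intro a p l ha; unfold round; simp only [ha]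

theorem sz_mtab_le (n : ℕ) (f : ℕ → ℕ) : sz (mtab n f) ≤ 1 + n * (2 + 2 * n) := by
  have h1 : ∀ a ∈ mtab n f, sz a ≤ 1 + 2 * n := by
    intro a ha
    unfold mtab at ha
    rw [List.mem_map] at ha
    obtain ⟨z, hz, rfl⟩ := ha
    rw [List.mem_range] at hz
    rw [sz_nat]
    split_ifs <;> omega
  refine (sz_list_le _ _ h1).trans ?_
  have h2 : (mtab n f).length = n := by unfold mtab; simp
  rw [h2]
  have h4 : n * (1 + (1 + 2 * n)) = n * (2 + 2 * n) := by ring
  omega

theorem sz_round_le {x : Gr} {Q M : List ℕ} (h : sz M ≤ 1 + x.1 * (2 + 2 * x.1)) :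
    sz (round x Q M) ≤ 1 + x.1 * (2 + 2 * x.1) := by
  unfold round
  split
  · exact h
  · unfold newM
    split
    · exact sz_mtab_le _ _
    · split
      · exact sz_mtab_le _ _
      · exact h

@[fun_prop]
theorem ptime_cover {x : α → Gr} {Q : α → List ℕ} (hx : PTime x) (hQ : PTime Q) :
    PTime (fun a => cover (x a) (Q a)) := by
  unfold cover
  have hn : PTime (fun a => (x a).1) := by fun_prop
  have hpb : PB (fun a => (x a).1) := pb_nat hn
  refine PTime.foldl (l := fun a => List.range (x a).1) (s := fun a => List.range (x a).1)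
    (f := fun y : α × List ℕ × ℕ => round (x y.1) (Q y.1) y.2.1) (by fun_prop) (by fun_prop) ?_
    (B := fun a => 1 + (x a).1 * (2 + 2 * (x a).1)) ?_ ?_
  · exact ptime_round (hx.comp PTime.fst) (hQ.comp PTime.fst) (by fun_prop)
  · exact (PB.const 1).add (hpb.mul ((PB.const 2).add ((PB.const 2).mul hpb)))
  · intro a l' _
    have key : ∀ (l' : List ℕ) (M : List ℕ), sz M ≤ 1 + (x a).1 * (2 + 2 * (x a).1) →
        sz (l'.foldl (fun s _ => round (x a) (Q a) s) M) ≤ 1 + (x a).1 * (2 + 2 * (x a).1) := by
      intro l'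
      induction l' with
      | nil => intro M h; exact h
      | cons b l' ih => intro M h; rw [List.foldl_cons]; exact ih _ (sz_round_le h)
    refine key l' _ ?_
    have h1 : ∀ b ∈ List.range (x a).1, sz b ≤ 1 + 2 * (x a).1 := by
      intro b hb
      rw [List.mem_range] at hb
      rw [sz_nat]
      omega
    refine (sz_list_le _ _ h1).trans ?_
    rw [List.length_range]
    have h4 : (x a).1 * (1 + (1 + 2 * (x a).1)) = (x a).1 * (2 + 2 * (x a).1) := by ring
    omega

/-- The algorithm runs in polynomial time. -/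
@[fun_prop]
theorem ptime_coverB {x : α → Gr} {Q : α → List ℕ} (hx : PTime x) (hQ : PTime Q) :
    PTime (fun a => coverB (x a) (Q a)) := by
  unfold coverB
  fun_prop

end

end Pool.Agent.Work.PolyTime.Blossom
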