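import Mathlib

/-!
Search for alternating paths in general graphs (the algorithm of Edmonds in the form of Gabow),
abstract part. A matching is given by an involution `m` (fixed points are the exposed vertices),
an alternating path of even length from `x` to the exposed vertex `r` by the list of its vertices
at even distance from `x`. The state of the search is a function `P` that gives the path of the
outer vertices and the empty list for the other ones.
-/

set_option autoImplicit false

namespace Pool.Agent.Work.PolyTime.Blossom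

variable {V : Type*} [DecidableEq V]

/-- The outer vertex `a` is a base: it is the root, or its partner is not outer. -/
def bs (m : V → V) (r : V) (P : V → List V) (a : V) : Bool := decide (a = r) || (P (m a)).isEmpty

/-- The bases on the path of `x`. -/
def B (m : V → V) (r : V) (P : V → List V) (x : V) : List V := (P x).filter (bs m r P)

/-- The invariants of the search. -/
structure Inv (adj : V → V → Prop) (m : V → V) (r : V) (P : V → List V) : Prop where
  root : P r = [r]
  head : ∀ x, P x ≠ [] → (P x).head? = some x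
  last : ∀ x, P x ≠ [] → (P x).getLast? = some r
  chain : ∀ x, (P x).IsChain (fun a b => adj (m a) b)
  outer : ∀ x, ∀ a ∈ P x, P a ≠ []
  nodup : ∀ x, (P x).Nodup
  reg : ∀ x, ∀ a ∈ P x, ∀ b ∈ P x, b ≠ r → a ≠ m b
  d1 : ∀ x l₁ a l₂, P x = l₁ ++ a :: l₂ → B m r P a = (a :: l₂).filter (bs m r P)
  d2 : ∀ a, P a ≠ [] → a ≠ r → P (m a) ≠ [] → B m r P (m a) = B m r P a

/-- The reverse of the image under `m` of the part of a list up to `b`, followed by `acc`. -/
def pre (m : V → V) (b : V) : List V → List V → List V
  | [], acc => acc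
  | a :: l, acc => if a = b then m a :: acc else pre m b l (m a :: acc)

/-- The state after the growth step with the vertex `x` and the new outer vertex `z`. -/
def stepG (P : V → List V) (x z : V) : V → List V := fun v =>
  if v = z then z :: P x else P v

/-- The state after the blossom step with the vertices `x` and `y`. -/
def stepB (m : V → V) (r : V) (P : V → List V) (x y : V) : V → List V := fun v =>
  if P v ≠ [] then P v
  else if m v ∈ B m r P x ∧ m v ∉ B m r P y then pre m (m v) (P x) (P y)
  else if m v ∈ B m r P y ∧ m v ∉ B m r P x then pre m (m v) (P y) (P x)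
  else []

variable {adj : V → V → Prop} {m : V → V} {r : V} {P : V → List V}

theorem bs_iff {a : V} : bs m r P a = true ↔ a = r ∨ P (m a) = [] := by
  simp [bs]

theorem bs_false {a : V} : bs m r P a = false ↔ a ≠ r ∧ P (m a) ≠ [] := by
  rw [← Bool.not_eq_true, bs_iff, not_or]

theorem mem_B {x a : V} : a ∈ B m r P x ↔ a ∈ P x ∧ (a = r ∨ P (m a) = []) := by
  rw [B, List.mem_filter, bs_iff]

theorem pre_eq {b : V} : ∀ (l₁ l₂ acc : List V), b ∉ l₁ →
    pre m b (l₁ ++ b :: l₂) acc = ((l₁ ++ [b]).map m).reverse ++ acc := by
  intro l₁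
  induction l₁ with
  | nil => intro l₂ acc _; simp [pre]
  | cons a l ih =>
    intro l₂ acc h
    rw [List.mem_cons, not_or] at h
    rw [List.cons_append, pre, if_neg (Ne.symm h.1), ih _ _ h.2]
    simp

/-- Two lists without repetitions whose suffixes from common elements agree have the common
elements in the same order. -/
theorem filter_common : ∀ (l l' : List V), l.Nodup → l'.Nodup →
    (∀ u ∈ l, u ∈ l' → ∃ k₁ k₂ s, l = k₁ ++ u :: s ∧ l' = k₂ ++ u :: s) →
    l.filter (fun u => decide (u ∈ l')) = l'.filter (fun u => decide (u ∈ l)) := by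
  intro l
  induction l with
  | nil => intro l' _ _ _; simp
  | cons b t ih =>
    intro l' hl hl' H
    rw [List.nodup_cons] at hl
    by_cases hb : b ∈ l'
    · obtain ⟨k₁, k₂, s, e1, e2⟩ := H b (by simp) hb
      have hk : k₁ = [] := by
        cases k₁ with
        | nil => rfl
        | cons c k =>
          rw [List.cons_append, List.cons.injEq] at e1
          exact absurd (by rw [e1.2]; simp) hl.1
      subst hk
      rw [List.nil_append, List.cons.injEq] at e1
      obtain ⟨-, rfl⟩ := e1
      subst e2
      rw [List.filter_eq_self.2 (fun u hu => by simpa using Or.inr (List.mem_cons.1 hu)),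
        List.filter_append, List.filter_eq_nil_iff.2 (fun u hu => ?_), List.nil_append,
        List.filter_eq_self.2 (fun u hu => by simpa using List.mem_cons.1 hu)]
      have := (List.nodup_append.1 hl').2.2 u hu
      simpa using fun h => this u h rfl
    · rw [List.filter_cons, if_neg (by simpa using hb),
        ih l' hl.2 hl' (fun u hu hu' => ?_)]
      · refine List.filter_congr fun u hu => ?_
        have : u ≠ b := fun h => hb (h ▸ hu)
        simp [this]
      · obtain ⟨k₁, k₂, s, e1, e2⟩ := H u (List.mem_cons_of_mem _ hu) hu'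
        cases k₁ with
        | nil =>
          rw [List.nil_append, List.cons.injEq] at e1
          exact absurd hu (e1.1 ▸ hl.1)
        | cons c k =>
          rw [List.cons_append, List.cons.injEq] at e1
          exact ⟨k, k₂, s, e1.2, e2⟩

namespace Inv

variable (h : Inv adj m r P)

include h

theorem mem_root {x : V} (hx : P x ≠ []) : r ∈ P x := List.mem_of_getLast? (h.last x hx)

theorem mem_self {x : V} (hx : P x ≠ []) : x ∈ P x := List.mem_of_head? (h.head x hx)

theorem root_mem_B {x : V} (hx : P x ≠ []) : r ∈ B m r P x := mem_B.2 ⟨h.mem_root hx, Or.inl rfl⟩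

theorem B_root : B m r P r = [r] := by
  rw [B, h.root]; simp [bs]

theorem nodup_B (x : V) : (B m r P x).Nodup := (h.nodup x).filter _



theorem suffix {x a : V} (ha : a ∈ P x) : B m r P a <:+ B m r P x := by
  obtain ⟨l₁, l₂, e⟩ := List.append_of_mem ha
  rw [h.d1 x l₁ a l₂ e, B, e, List.filter_append]
  exact List.suffix_append _ _

/-- The bases of a base `u` of `x` are a suffix, which starts with `u`. -/
theorem base_suffix {x u : V} (hu : u ∈ B m r P x) :
    ∃ k k', B m r P x = k ++ u :: k' ∧ B m r P u = u :: k' := by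
  rw [mem_B] at hu
  obtain ⟨l₁, l₂, e⟩ := List.append_of_mem hu.1
  have hb : bs m r P u = true := bs_iff.2 hu.2
  refine ⟨l₁.filter (bs m r P), l₂.filter (bs m r P), ?_, ?_⟩
  · rw [B, e, List.filter_append, List.filter_cons, if_pos hb]
  · rw [h.d1 x l₁ u l₂ e, List.filter_cons, if_pos hb]

theorem B_common (x y : V) : (B m r P x).filter (fun u => decide (u ∈ B m r P y)) =
    (B m r P y).filter (fun u => decide (u ∈ B m r P x)) := by
  refine filter_common _ _ (h.nodup_B x) (h.nodup_B y) fun u hu hu' => ?_
  obtain ⟨k₁, s, e1, e2⟩ := h.base_suffix hu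
  obtain ⟨k₂, s', e3, e4⟩ := h.base_suffix hu'
  rw [e2, List.cons.injEq] at e4
  exact ⟨k₁, k₂, s, e1, by rw [e3, e4.2]⟩

/-- The head of the list of bases. -/
theorem head_mem_B {x : V} (hx : P x ≠ []) : ∃ b k, B m r P x = b :: k := by
  have := h.root_mem_B hx
  cases e : B m r P x with
  | nil => rw [e] at this; simp at this
  | cons b k => exact ⟨b, k, rfl⟩

section

variable {x y b : V} {l₁ l₂ : List V}

theorem key1 (e : P x = l₁ ++ b :: l₂) (hb : bs m r P b = true) {a : V} (ha : a ∈ l₁ ++ [b]) :
    b ∈ B m r P a := by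
  have hd : ∃ s t, P x = s ++ a :: t ∧ b ∈ a :: t := by
    rcases List.mem_append.1 ha with ha | ha
    · obtain ⟨s, t, rfl⟩ := List.append_of_mem ha
      exact ⟨s, t ++ b :: l₂, by rw [e]; simp, by simp⟩
    · rw [List.mem_singleton] at ha
      subst ha
      exact ⟨l₁, l₂, e, by simp⟩
  obtain ⟨s, t, e', hbt⟩ := hd
  rw [h.d1 x s a t e', List.mem_filter]
  exact ⟨hbt, hb⟩

theorem mem_of_pre (e : P x = l₁ ++ b :: l₂) {a : V} (ha : a ∈ l₁ ++ [b]) : a ∈ P x := by
  rw [e]
  rcases List.mem_append.1 ha with ha | ha
  · exact List.mem_append_left _ ha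
  · rw [List.mem_singleton] at ha
    subst ha
    simp

theorem key2 (hy : P y ≠ []) (e : P x = l₁ ++ b :: l₂) (hb : bs m r P b = true)
    (hb' : b ∉ B m r P y) {a : V} (ha : a ∈ l₁ ++ [b]) : a ≠ r := by
  rintro rfl
  have := h.key1 e hb ha
  rw [h.B_root, List.mem_singleton] at this
  subst this
  exact hb' (h.root_mem_B hy)

theorem key3 (e : P x = l₁ ++ b :: l₂) (hb : bs m r P b = true)
    (hb' : b ∉ B m r P y) {a : V} (ha : a ∈ l₁ ++ [b]) : a ∉ P y := fun hay =>
  hb' ((h.suffix hay).subset (h.key1 e hb ha))

theorem key4 (hy : P y ≠ []) (e : P x = l₁ ++ b :: l₂) (hb : bs m r P b = true)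
    (hb' : b ∉ B m r P y) {a : V} (ha : a ∈ l₁ ++ [b]) : m a ∉ P y := fun hay => by
  have h1 := h.key1 e hb ha
  rw [← h.d2 a (h.outer x a (h.mem_of_pre e ha)) (h.key2 hy e hb hb' ha) (h.outer y _ hay)] at h1
  exact hb' ((h.suffix hay).subset h1)

end

end Inv

end Pool.Agent.Work.PolyTime.Blossom
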